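import Mathlib

/-! Module Abs: independent thin carriers in a countable abelian group. -/

namespace AlbCH

section Abs

variable {G : Type*} [AddCommGroup G]

/-- the division hull of the subgroup generated by `S` -/
def divHull (S : Set G) : AddSubgroup G where
  carrier := {P | ∃ n : ℕ, n ≠ 0 ∧ n • P ∈ AddSubgroup.closure S}
  add_mem' := by
    rintro P Q ⟨n, hn, hP⟩ ⟨m, hm, hQ⟩
    refine ⟨n * m, mul_ne_zero hn hm, ?_⟩
    rw [nsmul_add]
    apply AddSubgroup.add_mem
    · rw [mul_comm, mul_nsmul']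
      exact AddSubgroup.nsmul_mem _ hP _
    · rw [mul_nsmul']
      exact AddSubgroup.nsmul_mem _ hQ _
  zero_mem' := ⟨1, one_ne_zero, by rw [nsmul_zero]; exact AddSubgroup.zero_mem _⟩
  neg_mem' := by
    rintro P ⟨n, hn, hP⟩
    exact ⟨n, hn, by rw [smul_neg]; exact AddSubgroup.neg_mem _ hP⟩

theorem mem_divHull {S : Set G} {P : G} :
    P ∈ divHull S ↔ ∃ n : ℕ, n ≠ 0 ∧ n • P ∈ AddSubgroup.closure S := Iff.rfl

theorem divHull_div {S : Set G} {P : G} {n : ℕ} (hn : n ≠ 0) (h : n • P ∈ divHull S) :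
    P ∈ divHull S := by
  obtain ⟨m, hm, h⟩ := h
  exact ⟨m * n, mul_ne_zero hm hn, by rw [mul_comm, mul_nsmul]; exact h⟩

theorem subset_divHull {S : Set G} {P : G} (h : P ∈ S) : P ∈ divHull S :=
  ⟨1, one_ne_zero, by rw [one_nsmul]; exact AddSubgroup.subset_closure h⟩

theorem divHull_mono {S T : Set G} (h : S ⊆ T) : divHull S ≤ divHull T := by
  rintro P ⟨n, hn, hP⟩
  exact ⟨n, hn, AddSubgroup.closure_mono h hP⟩

theorem exists_lc_of_mem_divHull {v : ℕ → G} {T : Set ℕ} {c : G} (h : c ∈ divHull (v '' T)) :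
    ∃ n : ℕ, n ≠ 0 ∧ ∃ l : ℕ →₀ ℤ, (∀ t, t ∉ T → l t = 0) ∧
      n • c = l.sum (fun t a => a • v t) := by
  obtain ⟨n, hn, h⟩ := h
  refine ⟨n, hn, ?_⟩
  rw [← Submodule.span_int_eq_addSubgroupClosure, Submodule.mem_toAddSubgroup,
    Finsupp.mem_span_image_iff_linearCombination] at h
  obtain ⟨l, hl, hlc⟩ := h
  refine ⟨l, ?_, ?_⟩
  · intro t ht
    by_contra h0
    exact ht (hl (Finsupp.mem_support_iff.mpr h0))
  · rw [← hlc, Finsupp.linearCombination_apply]

/-- independence of `v` -/
theorem two_sets {v : ℕ → G} (hv : LinearIndependent ℤ v) {T T' : Set ℕ}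
    (hTT : Disjoint T T') {c d : G} (hc : c ∈ divHull (v '' T)) (hd : d ∈ divHull (v '' T'))
    (h : c + d = 0) : ∃ n : ℕ, n ≠ 0 ∧ n • c = 0 := by
  obtain ⟨n, hn, l, hl, hlc⟩ := exists_lc_of_mem_divHull hc
  obtain ⟨m, hm, l', hl', hlc'⟩ := exists_lc_of_mem_divHull hd
  refine ⟨n, hn, ?_⟩
  let Φ : (ℕ →₀ ℤ) →ₗ[ℤ] G := Finsupp.linearCombination ℤ v
  have e1 : Φ l = n • c := by rw [hlc, Finsupp.linearCombination_apply]
  have e2 : Φ l' = m • d := by rw [hlc', Finsupp.linearCombination_apply]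
  have h1 : Φ (m • l + n • l') = 0 := by
    rw [map_add, map_nsmul, map_nsmul, e1, e2, smul_comm m n c, ← smul_add, ← smul_add, h,
      smul_zero, smul_zero]
  have h2 : m • l + n • l' = 0 := linearIndependent_iff.mp hv _ h1
  have h3 : l = 0 := by
    ext t
    by_cases ht : t ∈ T
    · have h4 := DFunLike.congr_fun h2 t
      have h5 : l' t = 0 := hl' t (fun h' => Set.disjoint_left.mp hTT ht h')
      simp only [Finsupp.add_apply, Finsupp.smul_apply, h5, smul_zero, add_zero,
        Finsupp.coe_zero, Pi.zero_apply] at h4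
      rw [nsmul_eq_mul] at h4
      rcases mul_eq_zero.mp h4 with h6 | h6
      · exact absurd (by exact_mod_cast h6) hm
      · exact h6
    · exact hl t ht
  rw [hlc, h3, Finsupp.sum_zero_index]

theorem mem_divHull_of_zsmul {S : Set G} {x : G} {m : ℤ} (hm : m ≠ 0)
    (h : m • x ∈ AddSubgroup.closure S) : x ∈ divHull S := by
  refine ⟨m.natAbs, Int.natAbs_ne_zero.mpr hm, ?_⟩
  rcases Int.natAbs_eq m with h1 | h1
  · rw [← natCast_zsmul, ← h1]; exact h
  · have h2 : ((m.natAbs : ℕ) : ℤ) = -m := by omega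
    rw [← natCast_zsmul, h2, neg_smul]
    exact AddSubgroup.neg_mem _ h

/-- a group which is not contained in any of finitely many division closed subgroups is not
contained in their union -/
theorem exists_avoid (K : AddSubgroup G) (W : ℕ → AddSubgroup G)
    (hW : ∀ s (n : ℕ) (x : G), n ≠ 0 → n • x ∈ W s → x ∈ W s)
    (h : ∀ s, ∃ k ∈ K, k ∉ W s) (n : ℕ) : ∃ k ∈ K, ∀ s ≤ n, k ∉ W s := by
  induction n with
  | zero =>
    obtain ⟨k, hk, hk0⟩ := h 0
    refine ⟨k, hk, fun s hs => ?_⟩
    rw [Nat.le_zero.mp hs]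
    exact hk0
  | succ n ih =>
    obtain ⟨k, hk, hkn⟩ := ih
    obtain ⟨k', hk', hk'n⟩ := h (n + 1)
    have hbad : ∀ s ≤ n + 1, {j : ℕ | k + j • k' ∈ W s}.Subsingleton := by
      intro s hs
      have key : ∀ i j : ℕ, i < j → k + i • k' ∈ W s → k + j • k' ∈ W s → False := by
        intro i j hij hi hj
        have h1 : (j - i) • k' ∈ W s := by
          have h2 : (j - i) • k' = (k + j • k') - (k + i • k') := by
            have h3 : j • k' = (j - i) • k' + i • k' := by
              rw [← add_nsmul]; congr 1; omega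
            rw [h3]; abel
          rw [h2]
          exact AddSubgroup.sub_mem _ hj hi
        have h4 : k' ∈ W s := hW s _ _ (by omega) h1
        have h5 : k ∈ W s := by
          have h6 := AddSubgroup.sub_mem _ hi (AddSubgroup.nsmul_mem _ h4 i)
          rwa [add_sub_cancel_right] at h6
        rcases Nat.lt_or_ge n s with h7 | h7
        · have h8 : s = n + 1 := by omega
          rw [h8] at h4
          exact hk'n h4
        · exact hkn s h7 h5
      intro i hi j hj
      rcases lt_trichotomy i j with h1 | h1 | h1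
      · exact (key i j h1 hi hj).elim
      · exact h1
      · exact (key j i h1 hj hi).elim
    have hfin : (⋃ s ∈ Set.Iic (n + 1), {j : ℕ | k + j • k' ∈ W s}).Finite :=
      (Set.finite_Iic (n + 1)).biUnion fun s hs => (hbad s hs).finite
    obtain ⟨j, hj⟩ := hfin.exists_notMem
    refine ⟨k + j • k', AddSubgroup.add_mem _ hk (AddSubgroup.nsmul_mem _ hk' j),
      fun s hs hcon => hj ?_⟩
    simp only [Set.mem_iUnion]
    exact ⟨s, hs, hcon⟩

/-- **Independent thin carriers.** -/
theorem exists_carriers [Countable G] {κ : Type*} [Countable κ] [Nonempty κ] (R : ℕ → Set G)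
    (P : κ → AddSubgroup G)
    (h : ∀ i (n : ℕ) (F : Finset G), ∃ k ∈ P i, k ∉ divHull (R n ∪ (F : Set G))) :
    ∃ C : ℕ → AddSubgroup G,
      (∀ j (n : ℕ) (x : G), n ≠ 0 → n • x ∈ C j → x ∈ C j) ∧
      (∀ j, ∃ b : ℕ → G, LinearIndependent ℤ b ∧ ∀ i, b i ∈ C j) ∧
      (∀ (J : Finset ℕ) (c : ℕ → G), (∀ j ∈ J, c j ∈ C j) → ∑ j ∈ J, c j = 0 →
        ∀ j ∈ J, ∃ n : ℕ, n ≠ 0 ∧ n • c j = 0) ∧
      (∀ n : ℕ, ∃ f : Fin n → G, ∀ x ∈ ⨆ j, C j, x ∈ R n →
        ∃ N : ℕ, N ≠ 0 ∧ N • x ∈ AddSubgroup.closure (Set.range f)) ∧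
      ∀ i x j, ∃ k ∈ P i, x - k ∈ C j := by
  classical
  obtain ⟨lab, hlab⟩ := exists_surjective_nat (G × κ × ℕ × ℕ)
  have h' : ∀ i (n : ℕ) (F : Finset G), ∃ k ∈ P i, ∀ r ≤ n, k ∉ divHull (R r ∪ (F : Set G)) :=
    fun i n F => exists_avoid (P i) (fun r => divHull (R r ∪ (F : Set G)))
      (fun _ _ _ hm hx => divHull_div hm hx) (fun r => h i r F) n
  choose g hg1 hg2 using h'
  let x : ℕ → G := fun n => (lab n).1
  obtain ⟨F, hF⟩ : ∃ F : ℕ → Finset G,
      ∀ n, F (n + 1) = insert (x n - g (lab n).2.1 n (insert (x n) (F n))) (F n) :=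
    ⟨fun n => Nat.rec ∅ (fun n F => insert (x n - g (lab n).2.1 n (insert (x n) F)) F) n,
      fun n => rfl⟩
  let kk : ℕ → G := fun n => g (lab n).2.1 n (insert (x n) (F n))
  let v : ℕ → G := fun n => x n - kk n
  replace hF : ∀ n, F (n + 1) = insert (v n) (F n) := hF
  have hmono : ∀ i j, i ≤ j → F i ⊆ F j := by
    intro i j hij
    induction j, hij using Nat.le_induction with
    | base => exact subset_rfl
    | succ j _ ih => rw [hF]; exact ih.trans (Finset.subset_insert _ _)
  have hmem : ∀ i j, i < j → v i ∈ F j := by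
    intro i j hij
    apply hmono (i + 1) j hij
    rw [hF]; exact Finset.mem_insert_self _ _
  have hnot : ∀ n r : ℕ, r ≤ n → v n ∉ divHull (R r ∪ (↑(F n) : Set G)) := by
    intro n r hr hcon
    apply hg2 (lab n).2.1 n (insert (x n) (F n)) r hr
    have h1 : kk n = x n - v n := by
      simp only [v]; abel
    change kk n ∈ _
    rw [h1]
    apply AddSubgroup.sub_mem
    · apply subset_divHull
      right
      exact_mod_cast Finset.mem_insert_self _ _
    · refine divHull_mono ?_ hcon
      apply Set.union_subset_union_right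
      intro y hy
      exact_mod_cast Finset.mem_insert_of_mem hy
  -- a combination in `closure (R n)` involves only `v t` with `t < n`
  have hind : ∀ (n : ℕ) (l : ℕ →₀ ℤ), l.sum (fun t a => a • v t) ∈ AddSubgroup.closure (R n) →
      ∀ t, n ≤ t → l t = 0 := by
    intro n l hl t₀ ht₀
    by_contra hne
    have hne' : l.support.Nonempty := ⟨t₀, Finsupp.mem_support_iff.mpr hne⟩
    set m := l.support.max' hne' with hm
    have hmm : m ∈ l.support := Finset.max'_mem _ hne'
    have hnm : n ≤ m := ht₀.trans (Finset.le_max' _ _ (Finsupp.mem_support_iff.mpr hne))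
    apply hnot m n hnm
    apply mem_divHull_of_zsmul (Finsupp.mem_support_iff.mp hmm)
    have hsum : l m • v m = l.sum (fun t a => a • v t)
        - ∑ i ∈ l.support.erase m, l i • v i := by
      rw [Finsupp.sum, ← Finset.add_sum_erase _ _ hmm]; abel
    rw [hsum]
    apply AddSubgroup.sub_mem
    · exact AddSubgroup.closure_mono Set.subset_union_left hl
    · apply AddSubgroup.sum_mem
      intro i hi
      rw [Finset.mem_erase] at hi
      apply AddSubgroup.zsmul_mem
      apply AddSubgroup.subset_closure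
      right
      apply Finset.mem_coe.mpr
      apply hmem
      exact lt_of_le_of_ne (Finset.le_max' _ _ hi.2) hi.1
  have hlin : LinearIndependent ℤ v := by
    rw [linearIndependent_iff]
    intro l hl
    ext t
    apply hind 0 l ?_ t (Nat.zero_le t)
    rw [← Finsupp.linearCombination_apply, hl]
    exact AddSubgroup.zero_mem _
  refine ⟨fun j => divHull (v '' {t | (lab t).2.2.1 = j}), ?_, ?_, ?_, ?_, ?_⟩
  · intro j n y hn hy
    exact divHull_div hn hy
  · intro j
    obtain ⟨i₀⟩ := ‹Nonempty κ›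
    have hsur : ∀ r : ℕ, ∃ t, lab t = (0, i₀, j, r) := fun r => hlab _
    choose t ht using hsur
    have hinj : Function.Injective t := by
      intro r r' hrr
      have h1 := ht r
      rw [hrr, ht r'] at h1
      simpa using h1.symm
    refine ⟨fun r => v (t r), hlin.comp t hinj, fun r => subset_divHull ⟨t r, ?_, rfl⟩⟩
    rw [Set.mem_ofPred_eq, ht]
  · intro J c hc hsum j hj
    have h1 : c j + ∑ i ∈ J.erase j, c i = 0 := by
      rw [Finset.add_sum_erase _ _ hj]; exact hsum
    refine two_sets hlin (T := {t | (lab t).2.2.1 = j}) (T' := {t | (lab t).2.2.1 ≠ j})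
      ?_ (hc j hj) ?_ h1
    · rw [Set.disjoint_left]
      intro t ht ht'
      exact ht' ht
    · apply AddSubgroup.sum_mem
      intro i hi
      rw [Finset.mem_erase] at hi
      refine divHull_mono ?_ (hc i hi.2)
      apply Set.image_mono
      intro t ht
      rw [Set.mem_ofPred_eq] at ht ⊢
      rw [ht]
      exact hi.1
  · intro n
    refine ⟨fun i => v i, fun y hy hyR => ?_⟩
    have hle : ⨆ j, divHull (v '' {t | (lab t).2.2.1 = j}) ≤ divHull (v '' Set.univ) :=
      iSup_le fun j => divHull_mono (Set.image_mono (Set.subset_univ _))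
    obtain ⟨N, hN, l, -, hlc⟩ := exists_lc_of_mem_divHull (hle hy)
    refine ⟨N, hN, ?_⟩
    have h1 : l.sum (fun t a => a • v t) ∈ AddSubgroup.closure (R n) := by
      rw [← hlc]
      exact AddSubgroup.nsmul_mem _ (AddSubgroup.subset_closure hyR) _
    have h2 := hind n l h1
    rw [hlc, Finsupp.sum]
    apply AddSubgroup.sum_mem
    intro t ht
    apply AddSubgroup.zsmul_mem
    apply AddSubgroup.subset_closure
    have htn : t < n := by
      by_contra hcon
      exact Finsupp.mem_support_iff.mp ht (h2 t (not_lt.mp hcon))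
    exact ⟨⟨t, htn⟩, rfl⟩
  · intro i y j
    obtain ⟨t, ht⟩ := hlab (y, i, j, 0)
    refine ⟨kk t, ?_, ?_⟩
    · have h1 := hg1 (lab t).2.1 t (insert (x t) (F t))
      change kk t ∈ P (lab t).2.1 at h1
      rw [ht] at h1
      exact h1
    · have h1 : y - kk t = v t := by
        simp only [v, x]
        rw [ht]
      rw [h1]
      exact subset_divHull ⟨t, by rw [Set.mem_ofPred_eq, ht], rfl⟩

end Abs

end AlbCH
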