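import Pool.Agent.Lib.MP_2eeeac_ag.Carrier.Disc

/-! Module Bounded: the extensions of `ℚ_2` of degree `≤ d` are contained in a finite extension.
(Krasner's lemma and compactness.) -/

namespace AlbCH

open Polynomial

section Bounded

/-- the monic polynomial with lower coefficients `a` -/
noncomputable def pol {D : ℕ} (a : Fin D → ℤ_[2]) : Polynomial (PadicAlgCl 2) :=
  X ^ D + ∑ i : Fin D, C (algebraMap ℚ_[2] (PadicAlgCl 2) (a i : ℚ_[2])) * X ^ (i : ℕ)

theorem pol_monic {D : ℕ} (a : Fin D → ℤ_[2]) : (pol a).Monic :=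
  monic_X_pow_add (degree_sum_fin_lt _)

theorem pol_natDegree {D : ℕ} (a : Fin D → ℤ_[2]) : (pol a).natDegree = D := by
  unfold pol
  rw [natDegree_add_eq_left_of_degree_lt]
  · exact natDegree_X_pow D
  · rw [degree_X_pow]
    exact degree_sum_fin_lt _

theorem pol_eval {D : ℕ} (a : Fin D → ℤ_[2]) (y : PadicAlgCl 2) :
    (pol a).eval y = y ^ D
      + ∑ i : Fin D, algebraMap ℚ_[2] (PadicAlgCl 2) (a i : ℚ_[2]) * y ^ (i : ℕ) := by
  unfold pol
  rw [eval_add, eval_pow, eval_X, eval_finsetSum]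
  simp only [eval_mul, eval_C, eval_pow, eval_X]

theorem pol_eval_sub {D : ℕ} (a b : Fin D → ℤ_[2]) {y : PadicAlgCl 2} (hy : ‖y‖ ≤ 1) {δ : ℝ}
    (hδ : 0 < δ) (h : ∀ i, ‖a i - b i‖ < δ) : ‖(pol a).eval y - (pol b).eval y‖ < δ := by
  have h1 : (pol a).eval y - (pol b).eval y
      = ∑ i : Fin D, algebraMap ℚ_[2] (PadicAlgCl 2) ((a i - b i : ℤ_[2]) : ℚ_[2])
        * y ^ (i : ℕ) := by
    rw [pol_eval, pol_eval, add_sub_add_left_eq_sub, ← Finset.sum_sub_distrib]
    refine Finset.sum_congr rfl fun i _ => ?_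
    rw [PadicInt.coe_sub, map_sub, sub_mul]
  rw [h1]
  by_cases hD : (Finset.univ : Finset (Fin D)).Nonempty
  · obtain ⟨i, -, hi⟩ := IsUltrametricDist.exists_norm_finsetSum_le_of_nonempty hD
      (fun i : Fin D => algebraMap ℚ_[2] (PadicAlgCl 2) ((a i - b i : ℤ_[2]) : ℚ_[2])
        * y ^ (i : ℕ))
    refine hi.trans_lt ?_
    rw [norm_mul, norm_pow, PadicAlgCl.norm_extends]
    have h2 : ‖((a i - b i : ℤ_[2]) : ℚ_[2])‖ = ‖a i - b i‖ := rfl
    rw [h2]
    calc ‖a i - b i‖ * ‖y‖ ^ (i : ℕ) ≤ ‖a i - b i‖ * 1 :=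
          mul_le_mul_of_nonneg_left (pow_le_one₀ (norm_nonneg _) hy) (norm_nonneg _)
      _ < δ := by rw [mul_one]; exact h i
  · rw [Finset.not_nonempty_iff_eq_empty] at hD
    rw [hD, Finset.sum_empty, norm_zero]
    exact hδ

theorem prod_norm_ge (y : PadicAlgCl 2) {η : ℝ} (hη : 0 ≤ η) (s : Multiset (PadicAlgCl 2))
    (h : ∀ x ∈ s, η ≤ ‖y - x‖) :
    η ^ Multiset.card s ≤ ‖(s.map (fun x => y - x)).prod‖ := by
  induction s using Multiset.induction_on with
  | empty => simp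
  | cons a s ih =>
    rw [Multiset.card_cons, Multiset.map_cons, Multiset.prod_cons, norm_mul, pow_succ, mul_comm]
    exact mul_le_mul (h a (Multiset.mem_cons_self a s))
      (ih fun x hx => h x (Multiset.mem_cons_of_mem hx)) (pow_nonneg hη _) (norm_nonneg _)

theorem exists_near_root {D : ℕ} (a b : Fin D → ℤ_[2]) {y : PadicAlgCl 2} (hy : ‖y‖ ≤ 1)
    {η : ℝ} (hη : 0 < η) (h : ∀ i, ‖a i - b i‖ < η ^ D) (hb : (pol b).eval y = 0) :
    ∃ x, (pol a).eval x = 0 ∧ ‖y - x‖ < η := by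
  by_contra hcon
  push Not at hcon
  have h1 : ‖(pol a).eval y‖ < η ^ D := by
    have := pol_eval_sub a b hy (pow_pos hη D) h
    rwa [hb, sub_zero] at this
  have hs : (pol a).Splits := IsAlgClosed.splits _
  rw [hs.eval_eq_prod_roots_of_monic (pol_monic a) y] at h1
  have h2 := prod_norm_ge y hη.le (pol a).roots (fun x hx => by
    have h3 := (mem_roots (pol_monic a).ne_zero).mp hx
    exact hcon x h3)
  have h4 : Multiset.card (pol a).roots = D :=
    hs.natDegree_eq_card_roots.symm.trans (pol_natDegree a)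
  rw [h4] at h2
  exact absurd h1 (not_lt.mpr h2)

theorem exists_radius {D : ℕ} (a : Fin D → ℤ_[2]) :
    ∃ η : ℝ, 0 < η ∧ η ≤ 1 / 4 ∧ ∀ x x' : PadicAlgCl 2, (pol a).eval x = 0 →
      (pol a).eval x' = 0 → x ≠ x' → η ≤ ‖x - x'‖ := by
  classical
  let Z : Finset (PadicAlgCl 2) := (pol a).roots.toFinset
  let s : Finset ℝ := insert (1 / 4 : ℝ)
    (((Z ×ˢ Z).filter (fun p => p.1 ≠ p.2)).image (fun p => ‖p.1 - p.2‖))
  have hs : s.Nonempty := Finset.insert_nonempty _ _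
  have hZ : ∀ x, (pol a).eval x = 0 → x ∈ Z := fun x hx =>
    Multiset.mem_toFinset.mpr ((mem_roots (pol_monic a).ne_zero).mpr hx)
  refine ⟨s.min' hs, ?_, Finset.min'_le _ _ (Finset.mem_insert_self _ _), ?_⟩
  · have h1 := Finset.min'_mem s hs
    rcases Finset.mem_insert.mp h1 with h2 | h2
    · rw [h2]; norm_num
    · obtain ⟨p, hp, hp2⟩ := Finset.mem_image.mp h2
      rw [← hp2]
      exact norm_pos_iff.mpr (sub_ne_zero.mpr (Finset.mem_filter.mp hp).2)
  · intro x x' hx hx' hne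
    apply Finset.min'_le
    apply Finset.mem_insert_of_mem
    exact Finset.mem_image.mpr ⟨(x, x'), Finset.mem_filter.mpr
      ⟨Finset.mem_product.mpr ⟨hZ x hx, hZ x' hx'⟩, hne⟩, rfl⟩

theorem exists_move {p : ℕ} [Fact p.Prime] (L : IntermediateField ℚ_[p] (PadicAlgCl p))
    (y : PadicAlgCl p) (hy : y ∉ L) :
    ∃ τ : PadicAlgCl p ≃ₐ[ℚ_[p]] PadicAlgCl p, (∀ x ∈ L, τ x = x) ∧ τ y ≠ y := by
  have h1 : ¬ ∀ τ : PadicAlgCl p ≃ₐ[L] PadicAlgCl p, τ y = y := by
    intro hall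
    have := (InfiniteGalois.mem_range_algebraMap_iff_fixed (k := L) (K := PadicAlgCl p) y).2
      hall
    obtain ⟨q, hq⟩ := this
    apply hy
    rw [← hq]
    exact q.2
  push Not at h1
  obtain ⟨τ, hτ⟩ := h1
  exact ⟨τ.restrictScalars ℚ_[p], fun x hx => τ.commutes ⟨x, hx⟩, hτ⟩

theorem norm_algEquiv (τ : PadicAlgCl 2 ≃ₐ[ℚ_[2]] PadicAlgCl 2) (x : PadicAlgCl 2) :
    ‖τ x‖ = ‖x‖ := by
  rw [← PadicAlgCl.spectralNorm_eq, ← PadicAlgCl.spectralNorm_eq]
  exact (spectralNorm_eq_of_equiv τ x).symm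

/-- Krasner's lemma for the roots of the polynomials near `pol a`, uniformly. -/
theorem exists_cover (D : ℕ) : ∃ S : Finset (PadicAlgCl 2),
    ∀ (F : IntermediateField ℚ_[2] (PadicAlgCl 2)) (y : PadicAlgCl 2) (b : Fin D → ℤ_[2]),
      ‖y‖ ≤ 1 → (pol b).eval y = 0 → (∀ q ∈ F, 1 / 4 ≤ ‖y - q‖) →
      ∃ x ∈ S, x ∉ F ∧ x ∈ F ⊔ IntermediateField.adjoin ℚ_[2] {y} := by
  classical
  choose η hη0 hη1 hη2 using fun a : Fin D → ℤ_[2] => exists_radius a
  obtain ⟨t, ht⟩ := (isCompact_univ (X := Fin D → ℤ_[2])).elim_nhds_subcover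
    (fun a => Metric.ball a ((η a) ^ D))
    (fun a _ => Metric.ball_mem_nhds a (pow_pos (hη0 a) D))
  refine ⟨t.biUnion (fun a => (pol a).roots.toFinset), fun F y b hy hb hF => ?_⟩
  obtain ⟨a, hat, hab⟩ := Set.mem_iUnion₂.mp (ht.2 (Set.mem_univ b))
  have hab' : ∀ i, ‖a i - b i‖ < (η a) ^ D := by
    intro i
    have h1 := (dist_pi_lt_iff (pow_pos (hη0 a) D)).mp (Metric.mem_ball.mp hab) i
    rw [dist_comm, dist_eq_norm] at h1
    exact h1
  obtain ⟨x, hx, hyx⟩ := exists_near_root a b hy (hη0 a) hab' hb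
  refine ⟨x, ?_, ?_, ?_⟩
  · exact Finset.mem_biUnion.mpr ⟨a, hat, Multiset.mem_toFinset.mpr
      ((mem_roots (pol_monic a).ne_zero).mpr hx)⟩
  · intro hxF
    have h1 := hF x hxF
    linarith [hη1 a]
  · by_contra hcon
    obtain ⟨τ, hτ, hτx⟩ := exists_move _ x hcon
    have hτy : τ y = y := hτ y ((le_sup_right : _ ≤ F ⊔ IntermediateField.adjoin ℚ_[2] {y})
      (IntermediateField.subset_adjoin _ _ rfl))
    have hroot : (pol a).eval (τ x) = 0 := by
      rw [pol_eval] at hx ⊢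
      have h1 := congrArg τ hx
      simp only [map_add, map_pow, map_sum, map_mul, AlgEquiv.commutes, map_zero] at h1
      exact h1
    have h2 := hη2 a (τ x) x hroot hx hτx
    have h3 : ‖τ x - x‖ ≤ ‖y - x‖ := by
      have h4 : τ x - x = -(τ (y - x)) + (y - x) := by
        rw [map_sub, hτy]; ring
      rw [h4]
      refine (IsUltrametricDist.norm_add_le_max _ _).trans (max_le ?_ le_rfl)
      rw [norm_neg, norm_algEquiv]
    linarith

/-- the elements of degree `≤ D` and absolute value `≤ 1` -/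
theorem exists_pol {D : ℕ} (G : IntermediateField ℚ_[2] (PadicAlgCl 2))
    [FiniteDimensional ℚ_[2] G] (hG : Module.finrank ℚ_[2] G ≤ D) {y : PadicAlgCl 2} (hyG : y ∈ G)
    (hy : ‖y‖ ≤ 1) : ∃ b : Fin D → ℤ_[2], (pol b).eval y = 0 := by
  have hint : IsIntegral ℚ_[2] y := (Algebra.IsAlgebraic.isAlgebraic y).isIntegral
  obtain ⟨p, hp⟩ : ∃ p, p = minpoly ℚ_[2] y := ⟨_, rfl⟩
  have hpm : p.Monic := by rw [hp]; exact minpoly.monic hint
  have hpy : aeval y p = 0 := by rw [hp]; exact minpoly.aeval _ _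
  have hdeg : p.natDegree ≤ D := by
    have h1 := minpoly.natDegree_le (A := ℚ_[2]) (⟨y, hyG⟩ : G)
    rw [IntermediateField.minpoly_eq] at h1
    rw [hp]
    exact h1.trans hG
  have hcoeff : ∀ n, ‖p.coeff n‖ ≤ 1 := by
    intro n
    rcases lt_trichotomy n p.natDegree with hn | hn | hn
    · have h1 : spectralValueTerms p n ≤ 1 := by
        refine (le_ciSup (spectralValueTerms_bddAbove p) n).trans ?_
        have h2 := PadicAlgCl.spectralNorm_eq (p := 2) y
        unfold spectralNorm spectralValue at h2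
        rw [hp, h2]
        exact hy
      rw [spectralValueTerms_of_lt_natDegree _ hn] at h1
      by_contra hcon
      rw [not_le] at hcon
      have hpos : (0 : ℝ) < 1 / ((p.natDegree : ℝ) - n) := by
        have : (n : ℝ) < p.natDegree := by exact_mod_cast hn
        apply div_pos one_pos
        linarith
      exact absurd h1 (not_le.mpr (Real.one_lt_rpow hcon hpos))
    · rw [hn, hpm.coeff_natDegree, norm_one]
    · rw [coeff_eq_zero_of_natDegree_lt hn, norm_zero]; exact zero_le_one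
  obtain ⟨q, hq⟩ : ∃ q, q = X ^ (D - p.natDegree) * p := ⟨_, rfl⟩
  have hqm : q.Monic := by rw [hq]; exact (monic_X_pow _).mul hpm
  have hqd : q.natDegree = D := by
    rw [hq, (monic_X_pow _).natDegree_mul hpm, natDegree_X_pow]
    omega
  have hqy : aeval y q = 0 := by rw [hq, map_mul, hpy, mul_zero]
  have hqc : ∀ n, ‖q.coeff n‖ ≤ 1 := by
    intro n
    rw [hq, coeff_X_pow_mul']
    split_ifs
    · exact hcoeff _
    · rw [norm_zero]; exact zero_le_one
  have hb : ∀ i : Fin D, ∃ z : ℤ_[2], (z : ℚ_[2]) = q.coeff (i : ℕ) := fun i =>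
    ⟨⟨q.coeff (i : ℕ), hqc i⟩, rfl⟩
  choose b hb using hb
  refine ⟨b, ?_⟩
  rw [pol_eval]
  simp only [hb]
  have h3 := hqm.as_sum
  rw [hqd] at h3
  rw [h3] at hqy
  simp only [map_add, map_pow, aeval_X, map_sum, map_mul, aeval_C] at hqy
  rw [Finset.sum_range] at hqy
  exact hqy

/-- normalisation -/
theorem exists_normal (F : IntermediateField ℚ_[2] (PadicAlgCl 2))
    [hF : FiniteDimensional ℚ_[2] F] {y : PadicAlgCl 2} (hy : y ∉ F) :
    ∃ (c : ℚ_[2]) (q : PadicAlgCl 2), q ∈ F ∧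
      ‖algebraMap ℚ_[2] (PadicAlgCl 2) c * (y - q)‖ ≤ 1 ∧
      ∀ q' ∈ F, 1 / 4 ≤ ‖algebraMap ℚ_[2] (PadicAlgCl 2) c * (y - q) - q'‖ := by
  let S : Submodule ℚ_[2] (PadicAlgCl 2) := Subalgebra.toSubmodule F.toSubalgebra
  have hSfin : FiniteDimensional ℚ_[2] S := hF
  have hclosed : IsClosed (S : Set (PadicAlgCl 2)) := Submodule.closed_of_finiteDimensional S
  have hne : (S : Set (PadicAlgCl 2)).Nonempty := ⟨0, S.zero_mem⟩
  have hδ : 0 < Metric.infDist y (S : Set (PadicAlgCl 2)) :=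
    (hclosed.notMem_iff_infDist_pos hne).mp hy
  obtain ⟨δ, hδdef⟩ : ∃ δ, δ = Metric.infDist y (S : Set (PadicAlgCl 2)) := ⟨_, rfl⟩
  rw [← hδdef] at hδ
  obtain ⟨q, hq, hyq⟩ := (Metric.infDist_lt_iff hne (r := 2 * δ)).mp (by rw [← hδdef]; linarith)
  rw [dist_eq_norm] at hyq
  have hlow : ∀ q' ∈ F, δ ≤ ‖y - q'‖ := by
    intro q' hq'
    rw [hδdef, ← dist_eq_norm]
    exact Metric.infDist_le_dist_of_mem hq'
  have hr : 0 < ‖y - q‖ := hδ.trans_le (hlow q hq)
  obtain ⟨n, hn1, hn2⟩ := exists_mem_Ioc_zpow hr (one_lt_two : (1 : ℝ) < 2)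
  have h2n : (0 : ℝ) < 2 ^ (n + 1) := by positivity
  have hc : ‖((2 : ℚ_[2]) ^ (n + 1))‖ = ((2 : ℝ) ^ (n + 1))⁻¹ := by
    have h2 := Padic.norm_p (p := 2)
    rw [Nat.cast_ofNat, Nat.cast_ofNat] at h2
    rw [norm_zpow, h2, inv_zpow]
  have hcne : algebraMap ℚ_[2] (PadicAlgCl 2) ((2 : ℚ_[2]) ^ (n + 1)) ≠ 0 := by
    rw [Ne, ← norm_eq_zero, PadicAlgCl.norm_extends, hc]
    exact (inv_pos.mpr h2n).ne'
  refine ⟨(2 : ℚ_[2]) ^ (n + 1), q, hq, ?_, fun q' hq' => ?_⟩
  · rw [norm_mul, PadicAlgCl.norm_extends, hc, inv_mul_le_iff₀ h2n, mul_one]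
    exact hn2
  · have h3 : algebraMap ℚ_[2] (PadicAlgCl 2) ((2 : ℚ_[2]) ^ (n + 1)) * (y - q) - q'
        = algebraMap ℚ_[2] (PadicAlgCl 2) ((2 : ℚ_[2]) ^ (n + 1))
          * (y - (q + q' / algebraMap ℚ_[2] (PadicAlgCl 2) ((2 : ℚ_[2]) ^ (n + 1)))) := by
      field_simp
      ring
    rw [h3, norm_mul, PadicAlgCl.norm_extends, hc]
    have h4 := hlow _ (F.add_mem hq (F.div_mem hq' (F.algebraMap_mem ((2 : ℚ_[2]) ^ (n + 1)))))
    have h5 : (2 : ℝ) ^ (n + 1) = 2 * 2 ^ n := by rw [zpow_add_one₀ two_ne_zero]; ring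
    rw [← div_eq_inv_mul, le_div_iff₀ h2n, h5]
    refine le_trans ?_ h4
    linarith

theorem exists_bounded_aux (d : ℕ) : ∀ (F : IntermediateField ℚ_[2] (PadicAlgCl 2)),
    FiniteDimensional ℚ_[2] F → ∃ T : IntermediateField ℚ_[2] (PadicAlgCl 2),
      FiniteDimensional ℚ_[2] T ∧ F ≤ T ∧ ∀ G : IntermediateField ℚ_[2] (PadicAlgCl 2),
        FiniteDimensional ℚ_[2] G → F ≤ G →
        Module.finrank ℚ_[2] G ≤ d * Module.finrank ℚ_[2] F → G ≤ T := by
  induction d with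
  | zero =>
    intro F hF
    refine ⟨F, hF, le_rfl, fun G hG _ hfin => ?_⟩
    have := hG
    have h1 : 0 < Module.finrank ℚ_[2] G := Module.finrank_pos
    omega
  | succ d ih =>
    intro F hF
    obtain ⟨S, hS⟩ := exists_cover ((d + 1) * Module.finrank ℚ_[2] F)
    have hadj : ∀ x : PadicAlgCl 2,
        FiniteDimensional ℚ_[2] (IntermediateField.adjoin ℚ_[2] ({x} : Set (PadicAlgCl 2))) :=
      fun x => IntermediateField.finiteDimensional_adjoin fun z _ =>
        (Algebra.IsAlgebraic.isAlgebraic z).isIntegral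
    have hFx : ∀ x : PadicAlgCl 2, FiniteDimensional ℚ_[2]
        (F ⊔ IntermediateField.adjoin ℚ_[2] {x} : IntermediateField ℚ_[2] (PadicAlgCl 2)) := by
      intro x
      have := hadj x
      infer_instance
    choose T hT1 hT2 hT3 using fun x : PadicAlgCl 2 =>
      ih (F ⊔ IntermediateField.adjoin ℚ_[2] {x}) (hFx x)
    have hsup : FiniteDimensional ℚ_[2] (⨆ x ∈ S, T x : IntermediateField ℚ_[2] (PadicAlgCl 2)) :=
      IntermediateField.finiteDimensional_iSup_of_finset' (fun x _ => hT1 x)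
    refine ⟨F ⊔ ⨆ x ∈ S, T x, inferInstance, le_sup_left, fun G hG hFG hfin => ?_⟩
    by_cases hGF : G ≤ F
    · exact hGF.trans le_sup_left
    obtain ⟨y, hyG, hyF⟩ := SetLike.not_le_iff_exists.mp hGF
    obtain ⟨c, q, hq, hn1, hn2⟩ := exists_normal F hyF
    have hy' : algebraMap ℚ_[2] (PadicAlgCl 2) c * (y - q) ∈ G :=
      G.mul_mem (G.algebraMap_mem c) (G.sub_mem hyG (hFG hq))
    obtain ⟨b, hb⟩ := exists_pol G hfin hy' hn1
    obtain ⟨x, hxS, hxF, hx⟩ := hS F _ b hn1 hb hn2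
    have hFxG : F ⊔ IntermediateField.adjoin ℚ_[2] {x} ≤ G := by
      apply sup_le hFG
      rw [IntermediateField.adjoin_le_iff, Set.singleton_subset_iff]
      refine (sup_le hFG ?_ : F ⊔ IntermediateField.adjoin ℚ_[2]
        {algebraMap ℚ_[2] (PadicAlgCl 2) c * (y - q)} ≤ G) hx
      rw [IntermediateField.adjoin_le_iff, Set.singleton_subset_iff]
      exact hy'
    have hFxi := hFx x
    have h1 : Module.finrank ℚ_[2] F ∣ Module.finrank ℚ_[2]
        (F ⊔ IntermediateField.adjoin ℚ_[2] {x} : IntermediateField ℚ_[2] (PadicAlgCl 2)) :=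
      IntermediateField.finrank_dvd_of_le_right le_sup_left
    have h2 : Module.finrank ℚ_[2] F ≠ Module.finrank ℚ_[2]
        (F ⊔ IntermediateField.adjoin ℚ_[2] {x} : IntermediateField ℚ_[2] (PadicAlgCl 2)) := by
      intro h3
      have h4 := IntermediateField.eq_of_le_of_finrank_eq
        (le_sup_left : F ≤ F ⊔ IntermediateField.adjoin ℚ_[2] {x}) h3
      apply hxF
      rw [h4]
      exact (le_sup_right : _ ≤ F ⊔ IntermediateField.adjoin ℚ_[2] {x})
        (IntermediateField.subset_adjoin _ _ rfl)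
    have h5 : 0 < Module.finrank ℚ_[2] F := Module.finrank_pos
    have h6 : Module.finrank ℚ_[2]
        (F ⊔ IntermediateField.adjoin ℚ_[2] {x} : IntermediateField ℚ_[2] (PadicAlgCl 2))
        ≤ Module.finrank ℚ_[2] G := by
      have := hG
      exact IntermediateField.finrank_le_of_le_right hFxG
    have h7 : 2 * Module.finrank ℚ_[2] F ≤ Module.finrank ℚ_[2]
        (F ⊔ IntermediateField.adjoin ℚ_[2] {x} : IntermediateField ℚ_[2] (PadicAlgCl 2)) := by
      obtain ⟨m, hm⟩ := h1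
      rw [hm] at h2 ⊢
      have h8 : m ≠ 0 := by
        rintro rfl
        have h9 : 0 < Module.finrank ℚ_[2] (F ⊔ IntermediateField.adjoin ℚ_[2] {x} :
          IntermediateField ℚ_[2] (PadicAlgCl 2)) := Module.finrank_pos
        omega
      have h10 : m ≠ 1 := by
        rintro rfl
        exact h2 (by ring)
      have h11 : 2 ≤ m := by omega
      nlinarith
    have h12 : G ≤ T x := by
      apply hT3 x G hG hFxG
      rcases Nat.eq_zero_or_pos d with h13 | h13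
      · subst h13
        omega
      · nlinarith
    have h14 : T x ≤ ⨆ x ∈ S, T x := le_iSup₂ (f := fun x (_ : x ∈ S) => T x) x hxS
    exact h12.trans (h14.trans le_sup_right)

/-- **The extensions of `ℚ_2` of degree `≤ d` are contained in a finite extension.** -/
theorem exists_bounded (d : ℕ) : ∃ T : IntermediateField ℚ_[2] (PadicAlgCl 2),
    FiniteDimensional ℚ_[2] T ∧ ∀ G : IntermediateField ℚ_[2] (PadicAlgCl 2),
      FiniteDimensional ℚ_[2] G → Module.finrank ℚ_[2] G ≤ d → G ≤ T := by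
  obtain ⟨T, hT, -, h⟩ := exists_bounded_aux d ⊥ inferInstance
  refine ⟨T, hT, fun G hG hd => h G hG bot_le ?_⟩
  rw [IntermediateField.finrank_bot, mul_one]
  exact hd

end Bounded

end AlbCH
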