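import Pool.Agent.Lib.MP_2eeeac_ag.Iso.N2

/-! Module Disc: subfields of the algebraic closure of `ℚ_2` with discrete value group. -/

namespace AlbCH

section Disc

/-- The norm takes values in `2^((1/N)ℤ)` on `L`, i.e. the value group of `L` is discrete, i.e.
`L` has finite ramification over `ℚ_2`. -/
def Disc (L : IntermediateField ℚ_[2] (PadicAlgCl 2)) : Prop :=
  ∃ N : ℕ, N ≠ 0 ∧ ∀ x ∈ L, x ≠ 0 → ∃ m : ℤ, ‖x‖ ^ N = (2 : ℝ) ^ m

theorem Disc.mono {L M : IntermediateField ℚ_[2] (PadicAlgCl 2)} (hM : Disc M) (h : L ≤ M) :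
    Disc L := by
  obtain ⟨N, hN, hM⟩ := hM
  exact ⟨N, hN, fun x hx => hM x (h hx)⟩

/-- an element of degree `≤ d` over `L` -/
theorem disc_step (L : IntermediateField ℚ_[2] (PadicAlgCl 2)) (x : PadicAlgCl 2) (hx0 : x ≠ 0)
    (p : Polynomial L) (hp : p.Monic) (hpx : Polynomial.aeval x p = 0) :
    ∃ e : ℕ, 1 ≤ e ∧ e ≤ p.natDegree ∧ ∃ y ∈ L, y ≠ 0 ∧ ‖x‖ ^ e = ‖y‖ := by
  have hxn : 0 < ‖x‖ := norm_pos_iff.mpr hx0
  let t : ℕ → PadicAlgCl 2 := fun i => (p.coeff i : PadicAlgCl 2) * x ^ i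
  have hsum : ∑ i ∈ Finset.range (p.natDegree + 1), t i = 0 := by
    rw [Polynomial.aeval_eq_sum_range] at hpx
    rw [← hpx]
    refine Finset.sum_congr rfl fun i _ => ?_
    rw [Algebra.smul_def]
    rfl
  obtain ⟨j, hj, hjmax⟩ := Finset.exists_max_image (Finset.range (p.natDegree + 1))
    (fun i => ‖t i‖) ⟨0, by simp⟩
  have htop : 0 < ‖t p.natDegree‖ := by
    have h1 : t p.natDegree = x ^ p.natDegree := by
      simp only [t]
      rw [Polynomial.coeff_natDegree, hp.leadingCoeff]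
      simp
    rw [h1, norm_pow]
    positivity
  have htj : 0 < ‖t j‖ := lt_of_lt_of_le htop (hjmax _ (by simp))
  have h2 : t j = - ∑ i ∈ (Finset.range (p.natDegree + 1)).erase j, t i := by
    rw [← Finset.add_sum_erase _ _ hj] at hsum
    exact eq_neg_of_add_eq_zero_left hsum
  have hne : ((Finset.range (p.natDegree + 1)).erase j).Nonempty := by
    rw [Finset.nonempty_iff_ne_empty]
    intro h3
    rw [h3, Finset.sum_empty, neg_zero] at h2
    rw [h2, norm_zero] at htj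
    exact lt_irrefl _ htj
  obtain ⟨i, hi, hi2⟩ := IsUltrametricDist.exists_norm_finsetSum_le_of_nonempty hne t
  rw [Finset.mem_erase] at hi
  have h3 : ‖t i‖ = ‖t j‖ := by
    apply le_antisymm (hjmax i hi.2)
    rw [h2, norm_neg]
    exact hi2
  have hi' : i ≤ p.natDegree := by have := Finset.mem_range.mp hi.2; omega
  have hj' : j ≤ p.natDegree := by have := Finset.mem_range.mp hj; omega
  have hci : (p.coeff i : PadicAlgCl 2) ≠ 0 := by
    intro h0
    have : t i = 0 := by simp only [t]; rw [h0, zero_mul]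
    rw [← h3, this, norm_zero] at htj
    exact lt_irrefl _ htj
  have hcj : (p.coeff j : PadicAlgCl 2) ≠ 0 := by
    intro h0
    have : t j = 0 := by simp only [t]; rw [h0, zero_mul]
    rw [this, norm_zero] at htj
    exact lt_irrefl _ htj
  have h4 : ‖(p.coeff i : PadicAlgCl 2)‖ * ‖x‖ ^ i = ‖(p.coeff j : PadicAlgCl 2)‖ * ‖x‖ ^ j := by
    have := h3
    simp only [t, norm_mul, norm_pow] at this
    exact this
  have hni : 0 < ‖(p.coeff i : PadicAlgCl 2)‖ := norm_pos_iff.mpr hci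
  have hnj : 0 < ‖(p.coeff j : PadicAlgCl 2)‖ := norm_pos_iff.mpr hcj
  rcases lt_or_gt_of_ne hi.1 with hij | hij
  · refine ⟨j - i, by omega, by omega, (p.coeff i : PadicAlgCl 2) / (p.coeff j : PadicAlgCl 2),
      div_mem (p.coeff i).2 (p.coeff j).2, div_ne_zero hci hcj, ?_⟩
    rw [norm_div, eq_div_iff hnj.ne']
    have h5 : ‖x‖ ^ j = ‖x‖ ^ (j - i) * ‖x‖ ^ i := by rw [← pow_add]; congr 1; omega
    rw [h5] at h4
    have h6 : ‖x‖ ^ i ≠ 0 := by positivity
    apply mul_right_cancel₀ h6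
    rw [h4]; ring
  · refine ⟨i - j, by omega, by omega, (p.coeff j : PadicAlgCl 2) / (p.coeff i : PadicAlgCl 2),
      div_mem (p.coeff j).2 (p.coeff i).2, div_ne_zero hcj hci, ?_⟩
    rw [norm_div, eq_div_iff hni.ne']
    have h5 : ‖x‖ ^ i = ‖x‖ ^ (i - j) * ‖x‖ ^ j := by rw [← pow_add]; congr 1; omega
    rw [h5] at h4
    have h6 : ‖x‖ ^ j ≠ 0 := by positivity
    apply mul_right_cancel₀ h6
    rw [← h4]; ring

/-- a finite extension of a field with discrete value group has discrete value group -/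
theorem Disc.sup_adjoin {L : IntermediateField ℚ_[2] (PadicAlgCl 2)} (hL : Disc L)
    {S : Set (PadicAlgCl 2)} (hS : S.Finite) :
    Disc (L ⊔ IntermediateField.adjoin ℚ_[2] S) := by
  obtain ⟨N, hN, hL⟩ := hL
  let M : IntermediateField L (PadicAlgCl 2) := IntermediateField.adjoin L S
  have hSf : Finite S := hS.to_subtype
  have hfin : FiniteDimensional L M :=
    IntermediateField.finiteDimensional_adjoin fun x _ =>
      (Algebra.IsAlgebraic.isAlgebraic (R := L) x).isIntegral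
  have hle : L ⊔ IntermediateField.adjoin ℚ_[2] S ≤ M.restrictScalars ℚ_[2] := by
    apply sup_le
    · intro x hx
      exact M.algebraMap_mem ⟨x, hx⟩
    · rw [IntermediateField.adjoin_le_iff]
      intro x hx
      exact IntermediateField.subset_adjoin L S hx
  obtain ⟨d, hd⟩ : ∃ d, d = Module.finrank L M := ⟨_, rfl⟩
  refine ⟨N * d.factorial, mul_ne_zero hN (Nat.factorial_ne_zero d), fun x hx hx0 => ?_⟩
  have hxM : x ∈ M := hle hx
  have hint : IsIntegral L x := (Algebra.IsAlgebraic.isAlgebraic (R := L) x).isIntegral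
  have hdeg : (minpoly L x).natDegree ≤ d := by
    have h1 := minpoly.natDegree_le (A := L) (⟨x, hxM⟩ : M)
    rw [IntermediateField.minpoly_eq] at h1
    rw [hd]
    exact h1
  obtain ⟨e, he1, he2, y, hy, hy0, hxy⟩ := disc_step L x hx0 (minpoly L x)
    (minpoly.monic hint) (minpoly.aeval L x)
  obtain ⟨m, hm⟩ := hL y hy hy0
  have hed : e ∣ d.factorial := Nat.dvd_factorial (by omega) (by omega)
  obtain ⟨f, hf⟩ := hed
  refine ⟨m * f, ?_⟩
  rw [hf, show N * (e * f) = e * N * f by ring, pow_mul, pow_mul, hxy, hm, zpow_mul,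
    zpow_natCast]

theorem Disc.of_finite (L : IntermediateField ℚ_[2] (PadicAlgCl 2))
    [FiniteDimensional ℚ_[2] L] : Disc L := by
  obtain ⟨N, hN, h⟩ := norm_of_finite L
  refine ⟨N, hN, fun x hx hx0 => ?_⟩
  obtain ⟨m, hm⟩ := h x hx hx0
  exact ⟨m, by rw [hm]; norm_num⟩

/-- if the tower becomes finite, all the elements lie in a finite extension -/
theorem disc_finite (L : IntermediateField ℚ_[2] (PadicAlgCl 2)) {r : ℕ → PadicAlgCl 2} {n₀ : ℕ}
    (h : ∀ n, n₀ ≤ n → r n ∈ L ⊔ IntermediateField.adjoin ℚ_[2] (r '' Set.Iio n)) (n : ℕ) :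
    r n ∈ L ⊔ IntermediateField.adjoin ℚ_[2] (r '' Set.Iio n₀) := by
  induction n using Nat.strong_induction_on with
  | _ n ih =>
    rcases lt_or_ge n n₀ with hn | hn
    · exact (le_sup_right : _ ≤ L ⊔ IntermediateField.adjoin ℚ_[2] (r '' Set.Iio n₀))
        (IntermediateField.subset_adjoin _ _ ⟨n, hn, rfl⟩)
    · refine (sup_le le_sup_left ?_ : L ⊔ IntermediateField.adjoin ℚ_[2] (r '' Set.Iio n) ≤
        L ⊔ IntermediateField.adjoin ℚ_[2] (r '' Set.Iio n₀)) (h n hn)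
      rw [IntermediateField.adjoin_le_iff]
      rintro _ ⟨j, hj, rfl⟩
      exact ih j hj

theorem exists_ramified_disc (L : IntermediateField ℚ_[2] (PadicAlgCl 2)) (hL : Disc L)
    {c r c' r' : ℕ → PadicAlgCl 2} (h : Tower c r)
    (h' : Tower c' r') (h0 : ‖c 0‖ ≤ 1) (h1 : ‖1 - c 0‖ = 1) (hc : c' 0 = c 0)
    (hr : r' 0 = - r 0) :
    (∀ n₀, ∃ n, n₀ ≤ n ∧ r n ∉ L ⊔ IntermediateField.adjoin ℚ_[2] (r '' Set.Iio n)) ∨
    (∀ n₀, ∃ n, n₀ ≤ n ∧ r' n ∉ L ⊔ IntermediateField.adjoin ℚ_[2] (r' '' Set.Iio n)) := by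
  by_contra hcon
  rw [not_or] at hcon
  obtain ⟨hA, hB⟩ := hcon
  push Not at hA hB
  obtain ⟨n₀, hn₀⟩ := hA
  obtain ⟨n₁, hn₁⟩ := hB
  have hrM := disc_finite L hn₀
  have hrM' := disc_finite L hn₁
  obtain ⟨M, hM⟩ : ∃ M, M = L ⊔ IntermediateField.adjoin ℚ_[2]
    ((r '' Set.Iio n₀) ∪ (r' '' Set.Iio n₁)) := ⟨_, rfl⟩
  have hMd : Disc M := by
    rw [hM]
    exact hL.sup_adjoin (((Set.finite_Iio n₀).image r).union ((Set.finite_Iio n₁).image r'))
  have hle1 : L ⊔ IntermediateField.adjoin ℚ_[2] (r '' Set.Iio n₀) ≤ M := by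
    rw [hM]
    exact sup_le_sup_left (IntermediateField.adjoin.mono _ _ _ Set.subset_union_left) _
  have hle2 : L ⊔ IntermediateField.adjoin ℚ_[2] (r' '' Set.Iio n₁) ≤ M := by
    rw [hM]
    exact sup_le_sup_left (IntermediateField.adjoin.mono _ _ _ Set.subset_union_right) _
  obtain ⟨N, hN0, hN⟩ := hMd
  have hc1 : ∀ n, c n ∈ M := fun n => by
    rw [← h.sq n]
    exact pow_mem (hle1 (hrM n)) 2
  have hc2 : ∀ n, c' n ∈ M := fun n => by
    rw [← h'.sq n]
    exact pow_mem (hle2 (hrM' n)) 2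
  obtain ⟨_, h3⟩ := tower_sep norm_two_alg h h' h0 h1 hc hr N
  set x : PadicAlgCl 2 := (c (N + 1) - c' (N + 1)) / c (N + 1) with hx
  have hxn : ‖x‖ ^ (2 ^ N) = 1 / 2 := by rw [hx, norm_div]; exact h3
  have hx0 : x ≠ 0 := by
    intro h4
    rw [h4, norm_zero, zero_pow (by positivity)] at hxn
    norm_num at hxn
  have hxM : x ∈ M := div_mem (sub_mem (hc1 _) (hc2 _)) (hc1 _)
  obtain ⟨m, hm⟩ := hN x hxM hx0
  have h5 : (2 : ℝ) ^ (m * (2 ^ N : ℕ)) = (2 : ℝ) ^ (-(N : ℤ)) := by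
    have h6 : (‖x‖ ^ N) ^ (2 ^ N) = (1 / 2 : ℝ) ^ N := by
      rw [← pow_mul, mul_comm, pow_mul, hxn]
    rw [hm] at h6
    rw [zpow_mul, zpow_natCast, zpow_neg, zpow_natCast]
    rw [h6, one_div, inv_pow]
  have h6 : m * ((2 ^ N : ℕ) : ℤ) = -(N : ℤ) :=
    zpow_right_injective₀ (by norm_num : (0:ℝ) < 2) (by norm_num) h5
  have h7 : ((2 ^ N : ℕ) : ℤ) ∣ (N : ℤ) := by
    rw [← dvd_neg, ← h6]
    exact dvd_mul_left _ _
  have h8 : 2 ^ N ∣ N := by exact_mod_cast h7
  have h9 := Nat.le_of_dvd (Nat.pos_of_ne_zero hN0) h8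
  exact absurd (Nat.lt_two_pow_self (n := N)) (not_lt.2 h9)

/-- the subfield of the algebraic closure of `ℚ_2` generated by a subfield of `ℚ̄` with discrete
value group has discrete value group -/
theorem disc_of_subfield {k : Type*} [Field k] [CharZero k] (ι : k →+* PadicAlgCl 2)
    (M : Subfield k) {N : ℕ} (hN : N ≠ 0)
    (h : ∀ x ∈ M, x ≠ 0 → ∃ m : ℤ, ‖ι x‖ ^ N = (2 : ℝ) ^ m) :
    Disc (IntermediateField.adjoin ℚ_[2] (ι '' (M : Set k))) := by
  refine ⟨N, hN, fun y hy hy0 => ?_⟩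
  -- `y` is a combination of elements of `ι M`
  have h1 : y ∈ Submodule.span ℚ_[2] (ι '' (M : Set k)) := by
    have h2 : y ∈ (IntermediateField.adjoin ℚ_[2] (ι '' (M : Set k))).toSubalgebra := hy
    rw [IntermediateField.adjoin_toSubalgebra_of_isAlgebraic
      (fun x _ => Algebra.IsAlgebraic.isAlgebraic x)] at h2
    rw [← Subalgebra.mem_toSubmodule, Algebra.adjoin_eq_span] at h2
    have h3 : (Submonoid.closure (ι '' (M : Set k)) : Set (PadicAlgCl 2)) = ι '' (M : Set k) := by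
      have h4 : ι '' (M : Set k) = ((M.toSubmonoid.map (ι : k →* PadicAlgCl 2)) :
        Set (PadicAlgCl 2)) := rfl
      rw [h4, Submonoid.closure_eq]
    rw [h3] at h2
    exact h2
  -- density
  have key : ∀ y ∈ Submodule.span ℚ_[2] (ι '' (M : Set k)), ∀ ε : ℝ, 0 < ε →
      ∃ x ∈ M, ‖y - ι x‖ < ε := by
    intro y h1
    induction h1 using Submodule.span_induction with
    | mem z hz =>
      obtain ⟨x, hx, rfl⟩ := hz
      intro ε hε
      exact ⟨x, hx, by rw [sub_self, norm_zero]; exact hε⟩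
    | zero =>
      intro ε hε
      exact ⟨0, M.zero_mem, by rw [map_zero, sub_self, norm_zero]; exact hε⟩
    | add z z' _ _ hz hz' =>
      intro ε hε
      obtain ⟨x, hx, hzx⟩ := hz ε hε
      obtain ⟨x', hx', hzx'⟩ := hz' ε hε
      refine ⟨x + x', M.add_mem hx hx', ?_⟩
      have h6 : z + z' - ι (x + x') = (z - ι x) + (z' - ι x') := by
        rw [map_add]; ring
      rw [h6]
      exact (IsUltrametricDist.norm_add_le_max _ _).trans_lt (max_lt hzx hzx')
    | smul q z _ hz =>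
      intro ε hε
      have hq1 : 0 < ‖q‖ + 1 := by positivity
      obtain ⟨x, hx, hzx⟩ := hz (ε / (‖q‖ + 1)) (by positivity)
      have hx1 : 0 < ‖ι x‖ + 1 := by positivity
      obtain ⟨r, hr⟩ := Padic.rat_dense 2 q (ε := ε / (‖ι x‖ + 1)) (by positivity)
      refine ⟨(r : k) * x, M.mul_mem (SubfieldClass.ratCast_mem M r) hx, ?_⟩
      have h6 : q • z - ι ((r : k) * x)
          = algebraMap ℚ_[2] (PadicAlgCl 2) q * (z - ι x)
            + algebraMap ℚ_[2] (PadicAlgCl 2) (q - r) * ι x := by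
        rw [map_mul, map_ratCast, Algebra.smul_def, map_sub, map_ratCast]
        ring
      rw [h6]
      refine (IsUltrametricDist.norm_add_le_max _ _).trans_lt (max_lt ?_ ?_)
      · rw [norm_mul, PadicAlgCl.norm_extends]
        rw [lt_div_iff₀ hq1] at hzx
        have h7 : ‖q‖ * ‖z - ι x‖ ≤ ‖z - ι x‖ * (‖q‖ + 1) := by
          nlinarith [norm_nonneg (z - ι x)]
        exact h7.trans_lt hzx
      · rw [norm_mul, PadicAlgCl.norm_extends]
        rw [lt_div_iff₀ hx1] at hr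
        have h7 : ‖q - (r : ℚ_[2])‖ * ‖ι x‖ ≤ ‖q - (r : ℚ_[2])‖ * (‖ι x‖ + 1) := by
          nlinarith [norm_nonneg (q - (r : ℚ_[2]))]
        exact h7.trans_lt hr
  obtain ⟨x, hx, hxy⟩ := key y h1 ‖y‖ (norm_pos_iff.mpr hy0)
  have h5 : ‖ι x‖ = ‖y‖ := by
    apply le_antisymm
    · have h6 : ι x = y + -(y - ι x) := by ring
      rw [h6]
      refine (IsUltrametricDist.norm_add_le_max _ _).trans (max_le le_rfl ?_)
      rw [norm_neg]; exact hxy.le
    · by_contra hcon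
      rw [not_le] at hcon
      have h6 : y = ι x + (y - ι x) := by ring
      have h7 : ‖y‖ < ‖y‖ := by
        nth_rw 1 [h6]
        exact (IsUltrametricDist.norm_add_le_max _ _).trans_lt (max_lt hcon hxy)
      exact lt_irrefl _ h7
  have hx0 : x ≠ 0 := by
    rintro rfl
    rw [map_zero, norm_zero] at h5
    exact hy0 (norm_eq_zero.mp h5.symm)
  obtain ⟨m, hm⟩ := h x hx hx0
  exact ⟨m, by rw [← h5]; exact hm⟩

end Disc

end AlbCH
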