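import Pool.Agent.Lib.MP_2eeeac_ag.Iso.MFB

/-! Module Mfold: moving zero-cycles on a product of elliptic curves into given subgroups. -/

namespace AlbCH

open WeierstrassCurve WeierstrassCurve.Affine

section Mfold

variable {k : Type*} [Field k] [IsAlgClosed k] [DecidableEq k] {I : Type} [Fintype I]
  [DecidableEq I] {A B : I → k} [∀ i, (Crv (A i) (B i)).IsElliptic]

/-- the degree of a zero-cycle -/
noncomputable def degH : (MPt A B →₀ ℤ) →+ ℤ :=
  Finsupp.liftAddHom (fun _ => AddMonoidHom.id ℤ)

/-- the sum of the `i`-th coordinates -/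
noncomputable def albH (i : I) : (MPt A B →₀ ℤ) →+ (Crv (A i) (B i)).Point :=
  Finsupp.liftAddHom (fun Q => zmultiplesHom _ (Q i))

/-- the class of a zero-cycle -/
noncomputable def clsH : (MPt A B →₀ ℤ) →+ MCH0Q A B :=
  Finsupp.liftAddHom (fun Q => zmultiplesHom _ (Mcl Q))

omit [IsAlgClosed k] [Fintype I] [DecidableEq I] [DecidableEq k]
  [∀ i, (Crv (A i) (B i)).IsElliptic] in
theorem degH_single (Q : MPt A B) (n : ℤ) : degH (Finsupp.single Q n) = n := by
  unfold degH
  rw [Finsupp.liftAddHom_apply_single]
  rfl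

omit [IsAlgClosed k] [Fintype I] [DecidableEq I] [∀ i, (Crv (A i) (B i)).IsElliptic] in
theorem albH_single (i : I) (Q : MPt A B) (n : ℤ) : albH i (Finsupp.single Q n) = n • Q i := by
  unfold albH
  rw [Finsupp.liftAddHom_apply_single]
  rfl

omit [IsAlgClosed k] [Fintype I] [DecidableEq I] [DecidableEq k] in
theorem clsH_single (Q : MPt A B) (n : ℤ) : clsH (Finsupp.single Q n) = n • Mcl Q := by
  unfold clsH
  rw [Finsupp.liftAddHom_apply_single]
  rfl

omit [IsAlgClosed k] [Fintype I] [DecidableEq I] [DecidableEq k]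
  [∀ i, (Crv (A i) (B i)).IsElliptic] in
theorem degH_apply (z : MPt A B →₀ ℤ) : degH z = z.sum (fun _ n => n) := rfl

omit [IsAlgClosed k] [Fintype I] [DecidableEq I] [∀ i, (Crv (A i) (B i)).IsElliptic] in
theorem albH_apply (i : I) (z : MPt A B →₀ ℤ) : albH i z = z.sum (fun Q n => n • Q i) := rfl

omit [IsAlgClosed k] [Fintype I] [DecidableEq I] [DecidableEq k] in
theorem clsH_apply (z : MPt A B →₀ ℤ) :
    clsH z = z.sum (fun Q n => (n : ℚ) • Mcl Q) := by
  change z.sum (fun Q n => n • Mcl Q) = _
  refine Finsupp.sum_congr fun Q _ => ?_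
  rw [Int.cast_smul_eq_zsmul]

omit [IsAlgClosed k] [Fintype I] in
theorem four_point (i j : I) (hij : i ≠ j) (c : MPt A B) (a a' : (Crv (A i) (B i)).Point)
    (b : (Crv (A j) (B j)).Point) (h : symb a b = symb a' b) :
    Mcl (Function.update (Function.update c i a) j b)
      - Mcl (Function.update (Function.update c i a) j 0)
      - Mcl (Function.update (Function.update c i 0) j b)
      + Mcl (Function.update (Function.update c i 0) j 0)
      = Mcl (Function.update (Function.update c i a') j b)
      - Mcl (Function.update (Function.update c i a') j 0)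
      - Mcl (Function.update (Function.update c i 0) j b)
      + Mcl (Function.update (Function.update c i 0) j 0) := by
  obtain ⟨f, hf⟩ := exists_push (A := A) (B := B) i j hij c
  have h1 := congrArg f h
  unfold symb at h1
  simp only [map_add, map_sub, hf] at h1
  exact h1

omit [Fintype I] in
/-- the homomorphism `a ↦ [(0, .., a, .., 0)] - [0]` -/
theorem axis_add [Nontrivial I] (i : I) (a a' : (Crv (A i) (B i)).Point) :
    Mcl (Function.update (0 : MPt A B) i (a + a')) - Mcl (0 : MPt A B)
      = (Mcl (Function.update (0 : MPt A B) i a) - Mcl (0 : MPt A B))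
        + (Mcl (Function.update (0 : MPt A B) i a') - Mcl (0 : MPt A B)) := by
  obtain ⟨j, hj⟩ := exists_ne i
  obtain ⟨f, hf⟩ := exists_push (A := A) (B := B) i j hj.symm 0
  have h1 := congrArg f (cl_add_fst (0 : (Crv (A j) (B j)).Point) a a')
  rw [map_add, map_add, hf, hf, hf, hf] at h1
  have h0 : ∀ x : (Crv (A i) (B i)).Point,
      Function.update (Function.update (0 : MPt A B) i x) j 0
        = Function.update (0 : MPt A B) i x := by
    intro x
    symm
    rw [Function.eq_update_iff]
    exact ⟨by rw [Function.update_of_ne hj]; rfl, fun _ _ => rfl⟩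
  have h2 : Function.update (0 : MPt A B) i 0 = 0 := Function.update_eq_self i (0 : MPt A B)
  rw [h0, h0, h0, h0, h2] at h1
  have h3 : Mcl (Function.update (0 : MPt A B) i (a + a')) - Mcl (0 : MPt A B)
      - ((Mcl (Function.update (0 : MPt A B) i a) - Mcl (0 : MPt A B))
        + (Mcl (Function.update (0 : MPt A B) i a') - Mcl (0 : MPt A B))) = 0 := by
    have h4 := sub_eq_zero.mpr h1
    rw [← h4]; abel
  exact sub_eq_zero.mp h3

/-- the points whose `i`-th coordinate is in `C` and whose other coordinates are those of `Q`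
or `0` -/
def NearSet (i : I) (C : AddSubgroup (Crv (A i) (B i)).Point) (Q : MPt A B) : Set (MPt A B) :=
  {R | R i ∈ C ∧ ∀ l, l ≠ i → R l = Q l ∨ R l = 0}

omit [IsAlgClosed k] [Fintype I] in
/-- the difference of two points which differ only in the coordinate `i` -/
theorem diff_carried (C : ∀ i, AddSubgroup (Crv (A i) (B i)).Point)
    (hC : ∀ i j, i ≠ j → ∀ (a : (Crv (A i) (B i)).Point) (b : (Crv (A j) (B j)).Point),
      ∃ a' ∈ C i, symb a b = symb a' b)
    (i : I) (Q : MPt A B) (a : (Crv (A i) (B i)).Point) (T : Finset I) (hT : i ∉ T) :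
    ∃ w : MPt A B →₀ ℤ, w ∈ Finsupp.supported ℤ ℤ (NearSet i (C i) Q) ∧ degH w = 0 ∧
      (∀ l, albH l w = 0) ∧
      Mcl (Function.update (T.piecewise Q 0) i a) - Mcl (Function.update (T.piecewise Q 0) i 0)
        - (Mcl (Function.update (0 : MPt A B) i a) - Mcl (Function.update (0 : MPt A B) i 0))
        = clsH w := by
  induction T using Finset.induction_on with
  | empty =>
    refine ⟨0, Submodule.zero_mem _, map_zero _, fun l => map_zero _, ?_⟩
    simp only [Finset.piecewise_empty, map_zero, sub_self]
  | insert j T hj ih =>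
    have hij : i ≠ j := fun h => hT (h ▸ Finset.mem_insert_self i T)
    have hiT : i ∉ T := fun h => hT (Finset.mem_insert_of_mem h)
    obtain ⟨w, hw, hdeg, halb, hcls⟩ := ih hiT
    obtain ⟨a', ha', hsy⟩ := hC i j hij a (Q j)
    obtain ⟨c, hc⟩ : ∃ c : MPt A B, c = T.piecewise Q 0 := ⟨_, rfl⟩
    rw [← hc] at hcls
    have hcl : ∀ l, c l = Q l ∨ c l = 0 := by
      intro l
      rw [hc]
      by_cases hl : l ∈ T
      · left; exact Finset.piecewise_eq_of_mem _ _ _ hl
      · right; rw [Finset.piecewise_eq_of_notMem _ _ _ hl]; rfl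
    have hcj : c j = 0 := by
      rw [hc, Finset.piecewise_eq_of_notMem _ _ _ hj]; rfl
    have h0 : c = Function.update c j 0 := by
      rw [Function.eq_update_iff]
      exact ⟨hcj, fun _ _ => rfl⟩
    have hcomm : ∀ (x : (Crv (A j) (B j)).Point) (y : (Crv (A i) (B i)).Point),
        Function.update (Function.update c j x) i y
          = Function.update (Function.update c i y) j x := fun x y =>
      Function.update_comm hij.symm x y c
    obtain ⟨w', hw'⟩ : ∃ w' : MPt A B →₀ ℤ, w' =
      Finsupp.single (Function.update (Function.update c i a') j (Q j)) 1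
      - Finsupp.single (Function.update (Function.update c i a') j 0) 1
      - Finsupp.single (Function.update (Function.update c i 0) j (Q j)) 1
      + Finsupp.single (Function.update (Function.update c i 0) j 0) 1 := ⟨_, rfl⟩
    have hnear : ∀ (x : (Crv (A i) (B i)).Point) (y : (Crv (A j) (B j)).Point),
        x ∈ C i → (y = Q j ∨ y = 0) →
        Function.update (Function.update c i x) j y ∈ NearSet i (C i) Q := by
      intro x y hx hy
      refine ⟨?_, fun l hl => ?_⟩
      · rw [Function.update_of_ne hij, Function.update_self]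
        exact hx
      · by_cases hlj : l = j
        · subst hlj
          rw [Function.update_self]
          exact hy
        · rw [Function.update_of_ne hlj, Function.update_of_ne hl]
          exact hcl l
    refine ⟨w + w', ?_, ?_, ?_, ?_⟩
    · apply Submodule.add_mem _ hw
      rw [hw']
      refine Submodule.add_mem _ (Submodule.sub_mem _ (Submodule.sub_mem _ ?_ ?_) ?_) ?_
      · exact Finsupp.single_mem_supported _ _ (hnear _ _ ha' (Or.inl rfl))
      · exact Finsupp.single_mem_supported _ _ (hnear _ _ ha' (Or.inr rfl))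
      · exact Finsupp.single_mem_supported _ _ (hnear _ _ (AddSubgroup.zero_mem _) (Or.inl rfl))
      · exact Finsupp.single_mem_supported _ _ (hnear _ _ (AddSubgroup.zero_mem _) (Or.inr rfl))
    · rw [map_add, hdeg, hw', map_add, map_sub, map_sub]
      simp only [degH_single]
      norm_num
    · intro l
      rw [map_add, halb l, hw', map_add, map_sub, map_sub]
      simp only [albH_single, one_smul]
      by_cases hlj : l = j
      · subst hlj
        simp only [Function.update_self]
        abel
      · simp only [Function.update_of_ne hlj]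
        abel
    · rw [Finset.piecewise_insert, ← hc, hcomm, hcomm, map_add, ← hcls, hw', map_add, map_sub,
        map_sub]
      simp only [clsH_single, one_smul]
      have h4 := four_point i j hij c a a' (Q j) hsy
      have e1 : Function.update (Function.update c i a) j 0 = Function.update c i a := by
        rw [← hcomm, ← h0]
      have e2 : Function.update (Function.update c i 0) j 0 = Function.update c i 0 := by
        rw [← hcomm, ← h0]
      rw [← h4, e1, e2]
      abel

omit [IsAlgClosed k] in
/-- one coordinate -/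
theorem point_carried (C : ∀ i, AddSubgroup (Crv (A i) (B i)).Point)
    (hC : ∀ i j, i ≠ j → ∀ (a : (Crv (A i) (B i)).Point) (b : (Crv (A j) (B j)).Point),
      ∃ a' ∈ C i, symb a b = symb a' b)
    (i : I) (Q : MPt A B) :
    ∃ w : MPt A B →₀ ℤ, w ∈ Finsupp.supported ℤ ℤ (NearSet i (C i) Q) ∧ degH w = 1 ∧
      (∀ l, albH l w = Function.update Q i 0 l) ∧
      Mcl Q = clsH w + (Mcl (Function.update (0 : MPt A B) i (Q i)) - Mcl (0 : MPt A B)) := by
  obtain ⟨w, hw, hdeg, halb, hcls⟩ := diff_carried C hC i Q (Q i) (Finset.univ.erase i)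
    (Finset.notMem_erase i _)
  have e1 : ∀ x : (Crv (A i) (B i)).Point,
      Function.update ((Finset.univ.erase i).piecewise Q 0) i x = Function.update Q i x := by
    intro x
    rw [Function.update_eq_iff]
    refine ⟨by rw [Function.update_self], fun l hl => ?_⟩
    rw [Function.update_of_ne hl]
    exact Finset.piecewise_eq_of_mem _ _ _ (Finset.mem_erase.mpr ⟨hl, Finset.mem_univ _⟩)
  have e2 : Function.update (0 : MPt A B) i 0 = 0 := Function.update_eq_self i (0 : MPt A B)
  rw [e1, e1, Function.update_eq_self, e2] at hcls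
  refine ⟨Finsupp.single (Function.update Q i 0) 1 + w, ?_, ?_, ?_, ?_⟩
  · refine Submodule.add_mem _ (Finsupp.single_mem_supported _ _ ⟨?_, fun l hl => ?_⟩) hw
    · rw [Function.update_self]; exact AddSubgroup.zero_mem _
    · left; rw [Function.update_of_ne hl]
  · rw [map_add, hdeg, degH_single, add_zero]
  · intro l
    rw [map_add, halb, albH_single, one_smul, add_zero]
  · rw [map_add, clsH_single, one_smul, ← hcls]
    abel

theorem step_carried [Nontrivial I] (C : ∀ i, AddSubgroup (Crv (A i) (B i)).Point)
    (hC : ∀ i j, i ≠ j → ∀ (a : (Crv (A i) (B i)).Point) (b : (Crv (A j) (B j)).Point),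
      ∃ a' ∈ C i, symb a b = symb a' b)
    (z : MPt A B →₀ ℤ) (hdeg : degH z = 0) (halb : ∀ i, albH i z = 0) (J : Finset I) :
    ∃ w : MPt A B →₀ ℤ, w ∈ Finsupp.supported ℤ ℤ {Q : MPt A B | ∀ i ∈ J, Q i ∈ C i} ∧
      degH w = 0 ∧ (∀ i, albH i w = 0) ∧ clsH z = clsH w := by
  induction J using Finset.induction_on with
  | empty =>
    refine ⟨z, ?_, hdeg, halb, rfl⟩
    rw [Finsupp.mem_supported]
    intro Q _ i hi
    exact absurd hi (Finset.notMem_empty i)
  | insert i J hi ih =>
    obtain ⟨w, hw, hdw, haw, hcw⟩ := ih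
    choose u hu hdu hau hcu using fun Q => point_carried C hC i Q
    let φ : (Crv (A i) (B i)).Point →+ MCH0Q A B :=
      AddMonoidHom.mk' (fun a => Mcl (Function.update (0 : MPt A B) i a) - Mcl (0 : MPt A B))
        (fun a a' => axis_add i a a')
    have hφ : ∀ Q, Mcl Q = clsH (u Q) + φ (Q i) := hcu
    refine ⟨∑ Q ∈ w.support, w Q • u Q, ?_, ?_, ?_, ?_⟩
    · apply Submodule.sum_mem
      intro Q hQ
      apply Submodule.smul_mem
      refine Finsupp.supported_mono ?_ (hu Q)
      rintro R ⟨hR1, hR2⟩ l hl
      have hQJ : ∀ i ∈ J, Q i ∈ C i := hw (Finset.mem_coe.mpr hQ)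
      rcases Finset.mem_insert.mp hl with rfl | hl
      · exact hR1
      · have hli : l ≠ i := fun h => hi (h ▸ hl)
        rcases hR2 l hli with h | h
        · rw [h]; exact hQJ l hl
        · rw [h]; exact AddSubgroup.zero_mem _
    · rw [map_sum]
      have h1 : ∀ Q ∈ w.support, degH (w Q • u Q) = w Q := by
        intro Q _
        rw [map_zsmul, hdu]; simp
      rw [Finset.sum_congr rfl h1]
      exact hdw
    · intro l
      rw [map_sum]
      have h1 : ∀ Q ∈ w.support, albH l (w Q • u Q) = w Q • Function.update Q i 0 l := by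
        intro Q _
        rw [map_zsmul, hau]
      rw [Finset.sum_congr rfl h1]
      by_cases hl : l = i
      · subst hl
        apply Finset.sum_eq_zero
        intro Q _
        rw [Function.update_self, smul_zero]
      · have h2 : ∀ Q ∈ w.support, w Q • Function.update Q i 0 l = w Q • Q l := by
          intro Q _
          rw [Function.update_of_ne hl]
        rw [Finset.sum_congr rfl h2]
        exact haw l
    · rw [hcw, map_sum]
      have h1 : ∀ Q ∈ w.support, clsH (w Q • u Q) = w Q • Mcl Q - φ (w Q • Q i) := by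
        intro Q _
        rw [map_zsmul, hφ Q, smul_add, map_zsmul]
        abel
      rw [Finset.sum_congr rfl h1, Finset.sum_sub_distrib, ← map_sum]
      have h2 : ∑ Q ∈ w.support, w Q • Q i = 0 := haw i
      rw [h2, map_zero, sub_zero]
      rfl

/-- **Theorem.** If `{a, b}` depends only on the class of `a` modulo `C i`, the zero-cycles of
degree `0` with trivial image in the Albanese variety can be moved into `∏ C i`. -/
theorem mfold_carried [Nontrivial I] (C : ∀ i, AddSubgroup (Crv (A i) (B i)).Point)
    (hC : ∀ i j, i ≠ j → ∀ (a : (Crv (A i) (B i)).Point) (b : (Crv (A j) (B j)).Point),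
      ∃ a' ∈ C i, symb a b = symb a' b)
    (z : MPt A B →₀ ℤ) (hdeg : z.sum (fun _ n => n) = 0)
    (halb : ∀ i, z.sum (fun Q n => n • Q i) = 0) :
    ∃ w : MPt A B →₀ ℤ, (∀ Q ∈ w.support, ∀ i, Q i ∈ C i) ∧ w.sum (fun _ n => n) = 0 ∧
      (∀ i, w.sum (fun Q n => n • Q i) = 0) ∧
      z.sum (fun Q n => (n : ℚ) • Mcl Q) = w.sum (fun Q n => (n : ℚ) • Mcl Q) := by
  obtain ⟨w, hw, hd, ha, hc⟩ := step_carried C hC z hdeg halb Finset.univ
  refine ⟨w, fun Q hQ i => ?_, hd, ha, ?_⟩
  · have := hw (Finset.mem_coe.mpr hQ)
    exact this i (Finset.mem_univ i)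
  · rw [← clsH_apply, ← clsH_apply]
    exact hc

end Mfold

end AlbCH
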