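import Pool.Agent.Lib.MP_2eeeac_ag.Iso.Ind
import Pool.Agent.Lib.MP_2eeeac_ag.Carrier.Disc

/-! Module Ram: independent points with the same abscissa, modulo the points which are rational
over a subfield of the algebraic closure of `ℚ_2` with discrete value group. The proofs are those of
module `Iso.Ind`, where the field is finite over `ℚ_2`. -/

namespace AlbCH

open WeierstrassCurve WeierstrassCurve.Affine

section ram

open Classical in
theorem ind_step_set (ι : AlgebraicClosure ℚ →+* PadicAlgCl 2) {A B x₀ : AlgebraicClosure ℚ}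
    [(Crv A B).IsElliptic] (hx0 : x₀ ≠ 0) (hx : ‖ι x₀‖ ≤ 1 / 256)
    {e₁ e₂ e₃ κ q : AlgebraicClosure ℚ} (hq : q ^ 2 = x₀) {c r : ℕ → AlgebraicClosure ℚ}
    (hD : Dat A B e₁ e₂ e₃ κ c r) (hc0 : ‖ι (c 0)‖ ≤ 1) (hc1 : ‖1 - ι (c 0)‖ = 1)
    (F : Set (Crv A B).Point) (L : IntermediateField ℚ_[2] (PadicAlgCl 2))
    (hL : ∀ s ∈ ({A, B, e₁, e₂, e₃, κ, q, c 0} : Finset (AlgebraicClosure ℚ)), ι s ∈ L)
    (hLF : ∀ P ∈ F, ∀ s ∈ coords P, ι s ∈ L)
    (hram : ∀ n₀, ∃ n, n₀ ≤ n ∧ ι (r n) ∉ L ⊔ IntermediateField.adjoin ℚ_[2]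
      ((fun j => ι (r j)) '' Set.Iio n)) :
    ∃ b ∈ gens x₀ A B, ∀ n : ℤ, n ≠ 0 →
      n • b ∉ AddSubgroup.closure F := by
  have h2 : ‖(2 : PadicAlgCl 2)‖ = 1 / 2 := norm_two_alg
  have hT := tower_map ι hD.tower
  obtain ⟨n₁, hn₁⟩ := tower_large h2 hT hc0 hc1
  obtain ⟨n, hn, hrn⟩ := hram n₁
  have hcn : 1 / 64 < ‖ι (c n)‖ := hn₁ n hn
  set K' := L ⊔ IntermediateField.adjoin ℚ_[2] ((fun j => ι (r j)) '' Set.Iio n) with hK'
  have hLK : L ≤ K' := le_sup_left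
  have hrK : ∀ j < n, ι (r j) ∈ K' := by
    intro j hj
    apply (le_sup_right : _ ≤ K')
    exact IntermediateField.subset_adjoin _ _ ⟨j, hj, rfl⟩
  have hcK : ι (c n) ∈ K' := by
    rcases n with _ | m
    · exact hLK (hL _ (by simp))
    · have h3 : ι (c (m + 1)) * (1 + ι (r m)) ^ 2 = 4 * ι (r m) := hT.succ m
      have h4 : ι (c (m + 1)) = 4 * ι (r m) / (1 + ι (r m)) ^ 2 := by
        rw [eq_div_iff (pow_ne_zero _ (hT.facts m).2.2.2.1)]
        exact h3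
      rw [h4]
      have h5 := hrK m (Nat.lt_succ_self m)
      exact div_mem (mul_mem (by exact_mod_cast natCast_mem K' 4) h5)
        (pow_mem (add_mem (one_mem _) h5) 2)
  have hrn2 : ι (r n) ^ 2 = ι (c n) := hT.sq n
  obtain ⟨τ, hτ, hτr⟩ := exists_conj_of_notMem K' (ι (r n)) hrn (by rw [hrn2]; exact hcK)
  -- the point
  obtain ⟨Y, hY⟩ := IsAlgClosed.exists_pow_nat_eq (x₀ * (x₀ - 1) * (x₀ - c n)) (n := 2)
    (by norm_num)
  have hcpos : (0 : ℝ) < ‖ι (c n)‖ := by linarith [hcn, show (0 : ℝ) < 1 / 64 by norm_num]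
  have hcne : ι (c n) ≠ 0 := norm_pos_iff.mp hcpos
  have hxlt : ‖ι x₀‖ < ‖ι (c n)‖ := by linarith
  have hx0' : ι x₀ ≠ 0 := by
    intro h
    exact hx0 (ι.injective (by rw [h, map_zero]))
  obtain ⟨hAdm, hch0, hchlt⟩ := chain_small h2 hT hc0 hc1 n hx0' hxlt
  have hAdm' : Adm r n x₀ := by
    have key : ∀ (m : ℕ) (X : AlgebraicClosure ℚ), Adm (fun j => ι (r j)) m (ι X) → Adm r m X := by
      intro m
      induction m with
      | zero => intro X _; trivial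
      | succ m ih =>
        intro X hX
        refine ⟨fun h => hX.1 (by rw [h, map_one]), ih _ ?_⟩
        have := (map_ch ι r (fun j => ι (r j)) 1 (fun j _ => rfl) X 0).1
        have e1 : ι (lX (r m) X) = lX (ι (r m)) (ι X) := by
          unfold lX
          simp only [map_div₀, map_mul, map_sub, map_add, map_pow, map_one, map_ofNat]
        rw [e1]
        exact hX.2
    exact key n x₀ hAdm
  have hxc : x₀ ≠ c n := by
    intro h
    rw [h] at hxlt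
    exact lt_irrefl _ hxlt
  have hns : (Crv A B).Nonsingular (e₁ + (e₂ - e₁) * chX r n x₀) (κ * chY r n x₀ Y) :=
    nonsing_of_eq (dat_curve hD n hY)
  refine ⟨.some _ _ hns, ⟨e₁, e₂, e₃, κ, c, r, n, Y, hD, hY, hxc, hAdm', hns, rfl⟩, ?_⟩
  -- the action of `τ` on `ι Y`
  have hτY : τ (ι Y) = -ι Y := by
    obtain ⟨z, hz, hzτ⟩ := exists_sqrt_fixed ((1 - ι x₀) * (1 - ι x₀ / ι (c n))) (by
      have e1 : (1 - ι x₀) * (1 - ι x₀ / ι (c n)) - 1
          = -ι x₀ + (-(ι x₀ / ι (c n)) * (1 - ι x₀)) := by ring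
      have e2 : ‖-ι x₀‖ < 1 / 4 := by rw [norm_neg]; linarith
      have e3 : ‖ι x₀ / ι (c n)‖ < 1 / 4 := by
        rw [norm_div, div_lt_iff₀ hcpos]
        linarith
      have e4 : ‖1 - ι x₀‖ ≤ 1 := by
        refine (norm_sub_le_max_ultra _ _).trans (max_le ?_ ?_)
        · rw [norm_one]
        · linarith
      have e5 : ‖-(ι x₀ / ι (c n)) * (1 - ι x₀)‖ < 1 / 4 := by
        rw [norm_mul, norm_neg]
        calc ‖ι x₀ / ι (c n)‖ * ‖1 - ι x₀‖ ≤ ‖ι x₀ / ι (c n)‖ * 1 :=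
              mul_le_mul_of_nonneg_left e4 (norm_nonneg _)
          _ < 1 / 4 := by rw [mul_one]; exact e3
      rw [e1]
      exact lt_of_le_of_lt (IsUltrametricDist.norm_add_le_max _ _) (max_lt e2 e5))
    have hqx : ι q ^ 2 = ι x₀ := by rw [← map_pow, hq]
    have hτq : τ (ι q) = ι q := hτ _ (hLK (hL _ (by simp)))
    have hτx : τ (ι x₀) = ι x₀ := by rw [← hqx, map_pow, hτq]
    have hτc : τ (ι (c n)) = ι (c n) := hτ _ hcK
    have hτz : τ z = z := by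
      apply hzτ
      rw [map_mul, map_sub, map_sub, map_div₀, map_one, hτx, hτc]
    have h5 : (ι Y) ^ 2 = (ι q * ι (r n) * z) ^ 2 := by
      rw [← map_pow, hY, mul_pow, mul_pow, hz, hqx, hrn2]
      simp only [map_mul, map_sub, map_one]
      field_simp
      ring
    rcases sq_eq_sq_iff_eq_or_eq_neg.1 h5 with h6 | h6
    · rw [h6, map_mul, map_mul, hτq, hτr, hτz]; ring
    · rw [h6, map_neg, map_mul, map_mul, hτq, hτr, hτz]; ring
  have hτx : τ (ι x₀) = ι x₀ := by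
    have hqx : ι q ^ 2 = ι x₀ := by rw [← map_pow, hq]
    rw [← hqx, map_pow, hτ _ (hLK (hL _ (by simp)))]
  -- `τ` on the point
  set b : (Crv A B).Point := .some _ _ hns with hb
  have hτA : (τ : PadicAlgCl 2 →+* PadicAlgCl 2) (ι A) = ι A := hτ _ (hLK (hL _ (by simp)))
  have hτB : (τ : PadicAlgCl 2 →+* PadicAlgCl 2) (ι B) = ι B := hτ _ (hLK (hL _ (by simp)))
  have hmX : ι (chX r n x₀) = chX (fun j => ι (r j)) n (ι x₀) :=
    (map_ch ι r (fun j => ι (r j)) n (fun j _ => rfl) x₀ Y).1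
  have hmY : ι (chY r n x₀ Y) = chY (fun j => ι (r j)) n (ι x₀) (ι Y) :=
    (map_ch ι r (fun j => ι (r j)) n (fun j _ => rfl) x₀ Y).2
  have hτch := map_ch (τ : PadicAlgCl 2 →+* PadicAlgCl 2) (fun j => ι (r j)) (fun j => ι (r j)) n
    (fun j hj => hτ _ (hrK j hj)) (ι x₀) (ι Y)
  have hτcX : τ (ι (chX r n x₀)) = ι (chX r n x₀) := by
    rw [hmX]
    have h5 := hτch.1
    have h6 : (τ : PadicAlgCl 2 →+* PadicAlgCl 2) (ι x₀) = ι x₀ := hτx
    rw [h6] at h5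
    exact h5
  have hτcY : τ (ι (chY r n x₀ Y)) = -ι (chY r n x₀ Y) := by
    rw [hmY]
    have h5 := hτch.2
    have h6 : (τ : PadicAlgCl 2 →+* PadicAlgCl 2) (ι x₀) = ι x₀ := hτx
    have h7 : (τ : PadicAlgCl 2 →+* PadicAlgCl 2) (ι Y) = -ι Y := hτY
    rw [h6, h7, chY_neg] at h5
    exact h5
  have hτb : mapPt (τ : PadicAlgCl 2 →+* PadicAlgCl 2) hτA hτB (mapPt ι rfl rfl b)
      = -(mapPt ι rfl rfl b) := by
    rw [hb, mapPt_some, mapPt_some, gg_neg_some]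
    apply gg_some_congr
    · change τ (ι (e₁ + (e₂ - e₁) * chX r n x₀)) = ι (e₁ + (e₂ - e₁) * chX r n x₀)
      rw [map_add, map_mul, map_sub, map_add, map_mul, map_sub, hτcX, hτ _ (hLK (hL e₁ (by simp))),
        hτ _ (hLK (hL e₂ (by simp)))]
    · change τ (ι (κ * chY r n x₀ Y)) = -ι (κ * chY r n x₀ Y)
      rw [map_mul, map_mul, hτcY, hτ _ (hLK (hL κ (by simp)))]
      ring
  intro m hm hmem
  have h5 := mapPt_fixed_of_closure ι (τ : PadicAlgCl 2 →+* PadicAlgCl 2) hτA hτB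
    F (fun P hP s hs => hτ _ (hLK (hLF P hP s hs))) _ hmem
  rw [map_zsmul, map_zsmul, hτb, smul_neg] at h5
  have h6 : (2 * m) • (mapPt ι rfl rfl b : (Crv (ι A) (ι B)).Point) = 0 := by
    rw [two_mul, add_zsmul]
    nth_rw 1 [← h5]
    exact neg_add_cancel _
  have h7 : (2 * m).natAbs • (mapPt ι rfl rfl b : (Crv (ι A) (ι B)).Point) = 0 := by
    rw [← natCast_zsmul]
    rcases Int.natAbs_eq (2 * m) with h6' | h6'
    · rw [← h6']; exact h6
    · have h8 : ((2 * m).natAbs : ℤ) = -(2 * m) := by omega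
      rw [h8, neg_zsmul, h6, neg_zero]
  -- contradiction with non-torsion
  obtain ⟨h12, h13, h23⟩ := hD.roots.ne
  have hι12 : ι e₁ ≠ ι e₂ := fun h => h12 (ι.injective h)
  have hι13 : ι e₁ ≠ ι e₃ := fun h => h13 (ι.injective h)
  have hd0 : ι e₂ - ι e₁ ≠ 0 := sub_ne_zero.mpr hι12.symm
  have hc0' : (ι e₃ - ι e₁) / (ι e₂ - ι e₁) = ι (c 0) := by
    rw [div_eq_iff hd0, ← map_sub, ← map_sub, ← map_mul, hD.c0]
  have hXb : (ι (e₁ + (e₂ - e₁) * chX r n x₀) - ι e₁) / (ι e₂ - ι e₁)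
      = chX (fun j => ι (r j)) n (ι x₀) := by
    rw [← hmX, div_eq_iff hd0]
    simp only [map_add, map_mul, map_sub]
    ring
  refine not_torsion_of_small h2 (gg_roots_map ι hD.roots) hι12 hι13 (by rw [hc0']; exact hc0)
    (nonsing_map ι rfl rfl hns) ?_ (by rw [hc0', hXb]; exact hchlt) (2 * m).natAbs (by omega) h7
  intro h
  apply hch0
  rw [← hXb, h, sub_self, zero_div]

open Classical in
theorem core_iso_disc (ι : AlgebraicClosure ℚ →+* PadicAlgCl 2) {A B x₀ : AlgebraicClosure ℚ}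
    [(Crv A B).IsElliptic] (hx0 : x₀ ≠ 0) (hx : ‖ι x₀‖ ≤ 1 / 256)
    (L₀ : IntermediateField ℚ_[2] (PadicAlgCl 2)) (hL₀ : Disc L₀) (F : Finset (Crv A B).Point) :
    ∃ b ∈ gens x₀ A B, ∀ n : ℤ, n ≠ 0 →
      n • b ∉ AddSubgroup.closure
        ({P : (Crv A B).Point | ∀ s ∈ coords P, ι s ∈ L₀} ∪ (F : Set (Crv A B).Point)) := by
  obtain ⟨e₁, e₂, e₃, hR, hc0, hc1⟩ := exists_order ι A B
  obtain ⟨h12, h13, h23⟩ := hR.ne
  have hsq : ∀ z : AlgebraicClosure ℚ, ∃ w : AlgebraicClosure ℚ, w ^ 2 = z := fun z =>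
    IsAlgClosed.exists_pow_nat_eq z (n := 2) (by norm_num)
  obtain ⟨κ, hκ⟩ := hsq ((e₂ - e₁) ^ 3)
  obtain ⟨q, hq⟩ := hsq x₀
  obtain ⟨r₀, hr₀⟩ := hsq ((e₃ - e₁) / (e₂ - e₁))
  have hd0 : e₂ - e₁ ≠ 0 := sub_ne_zero.mpr h12.symm
  have hn0 : r₀ ^ 2 ≠ 0 := by
    rw [hr₀]; exact div_ne_zero (sub_ne_zero.mpr h13.symm) hd0
  have hn1 : r₀ ^ 2 ≠ 1 := by
    rw [hr₀]
    intro h
    rw [div_eq_one_iff_eq hd0] at h
    exact h23 (by linear_combination -h)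
  obtain ⟨c, r, hT, hTc, hTr⟩ := exists_tower r₀ hn0 hn1
  obtain ⟨c', r', hT', hTc', hTr'⟩ := exists_tower (-r₀) (by rwa [neg_sq]) (by rwa [neg_sq])
  rw [neg_sq] at hTc'
  have hD : Dat A B e₁ e₂ e₃ κ c r := ⟨hR, hκ, by rw [hTc, hr₀]; field_simp, hT⟩
  have hD' : Dat A B e₁ e₂ e₃ κ c' r' := ⟨hR, hκ, by rw [hTc', hr₀]; field_simp, hT'⟩
  let S : Finset (AlgebraicClosure ℚ) := {A, B, e₁, e₂, e₃, κ, q, c 0} ∪ F.biUnion coords
  let L : IntermediateField ℚ_[2] (PadicAlgCl 2) :=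
    L₀ ⊔ IntermediateField.adjoin ℚ_[2] ((S.image ι : Finset (PadicAlgCl 2)) :
      Set (PadicAlgCl 2))
  have hLdisc : Disc L := hL₀.sup_adjoin (Finset.finite_toSet _)
  have hLS : ∀ s ∈ S, ι s ∈ L := by
    intro s hs
    apply (le_sup_right : _ ≤ L)
    exact IntermediateField.subset_adjoin _ _ (by
      rw [Finset.mem_coe]; exact Finset.mem_image_of_mem _ hs)
  have hLF : ∀ P ∈ ({P : (Crv A B).Point | ∀ s ∈ coords P, ι s ∈ L₀} ∪
      (F : Set (Crv A B).Point)), ∀ s ∈ coords P, ι s ∈ L := by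
    rintro P (hP | hP) s hs
    · exact (le_sup_left : L₀ ≤ L) (hP s hs)
    · apply hLS
      exact Finset.mem_union_right _ (Finset.mem_biUnion.mpr ⟨P, hP, hs⟩)
  have hL : ∀ s ∈ ({A, B, e₁, e₂, e₃, κ, q, c 0} : Finset (AlgebraicClosure ℚ)), ι s ∈ L :=
    fun s hs => hLS s (Finset.mem_union_left _ hs)
  have hcc : c' 0 = c 0 := by rw [hTc, hTc']
  have hc0' : ‖ι (c 0)‖ ≤ 1 := by rw [hTc, hr₀]; exact hc0
  have hc1' : ‖1 - ι (c 0)‖ = 1 := by rw [hTc, hr₀]; exact hc1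
  rcases exists_ramified_disc L hLdisc (tower_map ι hT) (tower_map ι hT') hc0' hc1'
      (by simp only [hcc]) (by simp only [hTr, hTr', map_neg]) with h | h
  · exact ind_step_set ι hx0 hx hq hD hc0' hc1' _ L hL hLF h
  · exact ind_step_set ι hx0 hx hq hD' (by rw [hcc]; exact hc0') (by rw [hcc]; exact hc1') _ L
      (by rw [hcc]; exact hL) hLF h

end ram

end AlbCH
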