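import Pool.Agent.Lib.MP_2eeeac_ag.Iso.Final
import Pool.Agent.Lib.MP_2eeeac_ag.Carrier.Abs
import Pool.Agent.Lib.MP_2eeeac_ag.Carrier.Ram
import Pool.Agent.Lib.MP_2eeeac_ag.Carrier.Mfold
import Pool.Agent.Lib.MP_2eeeac_ag.Carrier.Bounded

/-! Module Final: assembly. -/

namespace AlbCH

open WeierstrassCurve WeierstrassCurve.Affine

section final

/-- The subfield `M` of `ℚ̄` has finite ramification at some place of `ℚ̄` above `2`: for some
embedding `ι` of `ℚ̄` into an algebraic closure of `ℚ_2`, the absolute value takes on `ι(M)`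
values in `2^((1/N)ℤ) ∪ {0}`. -/
def FinRam (M : Subfield (AlgebraicClosure ℚ)) : Prop :=
  ∃ (ι : AlgebraicClosure ℚ →+* PadicAlgCl 2) (N : ℕ), N ≠ 0 ∧
    ∀ x ∈ M, x ≠ 0 → ∃ m : ℤ, ‖ι x‖ ^ N = (2 : ℝ) ^ m

theorem countable_algClosure : Countable (AlgebraicClosure ℚ) := by
  have halg : Algebra.IsAlgebraic ℚ (AlgebraicClosure ℚ) := AlgebraicClosure.isAlgebraic ℚ
  have h := Algebraic.countable ℚ (AlgebraicClosure ℚ)
  have h2 : {x : AlgebraicClosure ℚ | IsAlgebraic ℚ x} = Set.univ := by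
    ext x
    simp only [Set.mem_ofPred_eq, Set.mem_univ, iff_true]
    exact halg.isAlgebraic x
  rw [h2] at h
  exact Set.countable_univ_iff.mp h

theorem countable_point {F : Type*} [Field F] [Countable F] (A B : F) :
    Countable (Crv A B).Point := by
  let f : (Crv A B).Point → Option (F × F) := fun P => match P with
    | .zero => none
    | .some x y _ => some (x, y)
  have hf : Function.Injective f := by
    rintro (_ | ⟨x, y, h⟩) (_ | ⟨x', y', h'⟩) hPQ
    · rfl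
    · exact absurd hPQ (by simp [f])
    · exact absurd hPQ (by simp [f])
    · simp only [f, Option.some.injEq, Prod.mk.injEq] at hPQ
      obtain ⟨rfl, rfl⟩ := hPQ
      rfl
  exact hf.countable

/-- the elliptic curves with a point -/
abbrev PtdCurve (k : Type*) [Field k] :=
  Σ p : {p : k × k // (Crv p.1 p.2).IsElliptic}, (Crv p.1.1 p.1.2).Point

/-- the field `ℚ` satisfies `FinRam` -/
theorem finRam_bot : FinRam ⊥ := by
  have halg : Algebra.IsAlgebraic ℚ (AlgebraicClosure ℚ) := AlgebraicClosure.isAlgebraic ℚ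
  let ι : AlgebraicClosure ℚ →+* PadicAlgCl 2 :=
    (IsAlgClosed.lift : AlgebraicClosure ℚ →ₐ[ℚ] PadicAlgCl 2)
  refine ⟨ι, 1, one_ne_zero, fun x hx hx0 => ?_⟩
  rw [Subfield.bot_eq_of_charZero] at hx
  obtain ⟨q, rfl⟩ := hx
  have h1 : ι (algebraMap ℚ (AlgebraicClosure ℚ) q)
      = algebraMap ℚ_[2] (PadicAlgCl 2) (q : ℚ_[2]) := by
    rw [eq_ratCast (algebraMap ℚ (AlgebraicClosure ℚ)), map_ratCast, map_ratCast]
  have hq : (q : ℚ_[2]) ≠ 0 := by
    intro h
    apply hx0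
    have h2 : q = 0 := by exact_mod_cast h
    rw [h2, map_zero]
  refine ⟨-(q : ℚ_[2]).valuation, ?_⟩
  rw [h1, PadicAlgCl.norm_extends, pow_one, Padic.norm_eq_zpow_neg_valuation hq]
  norm_num

/-- The subfield of `ℚ̄` generated by `M` and all algebraic numbers of degree `≤ d`. -/
noncomputable def ExtField (M : Subfield (AlgebraicClosure ℚ)) (d : ℕ) : Subfield (AlgebraicClosure ℚ) :=
  Subfield.closure ((M : Set (AlgebraicClosure ℚ)) ∪ {x | (minpoly ℚ x).natDegree ≤ d})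

theorem Disc.sup_finite {L : IntermediateField ℚ_[2] (PadicAlgCl 2)} (hL : Disc L)
    (T : IntermediateField ℚ_[2] (PadicAlgCl 2)) [FiniteDimensional ℚ_[2] T] :
    Disc (L ⊔ T) := by
  let b := Module.finBasis ℚ_[2] T
  have hfin : (Set.range fun i => (b i : PadicAlgCl 2)).Finite := Set.finite_range _
  refine (hL.sup_adjoin hfin).mono (sup_le_sup_left ?_ _)
  intro x hx
  have h1 := b.sum_repr ⟨x, hx⟩
  have h2 : x = ∑ i, b.repr ⟨x, hx⟩ i • (b i : PadicAlgCl 2) := by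
    have h3 := congrArg (fun z : T => (z : PadicAlgCl 2)) h1
    simp only [AddSubmonoidClass.coe_finsetSum, IntermediateField.coe_smul] at h3
    exact h3.symm
  rw [h2]
  apply sum_mem
  intro i _
  rw [Algebra.smul_def]
  exact mul_mem (IntermediateField.algebraMap_mem _ _)
    (IntermediateField.subset_adjoin _ _ ⟨i, rfl⟩)

theorem extField_disc {M : Subfield (AlgebraicClosure ℚ)} (hM : FinRam M) (d : ℕ) :
    ∃ (ι : AlgebraicClosure ℚ →+* PadicAlgCl 2) (L : IntermediateField ℚ_[2] (PadicAlgCl 2)),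
      Disc L ∧ ∀ x ∈ ExtField M d, ι x ∈ L := by
  obtain ⟨ι, N, hN, hM⟩ := hM
  obtain ⟨T, hT, hTG⟩ := exists_bounded d
  have hL := disc_of_subfield ι M hN hM
  refine ⟨ι, _, hL.sup_finite T, ?_⟩
  have key : ExtField M d ≤ (IntermediateField.adjoin ℚ_[2] (ι '' (M : Set (AlgebraicClosure ℚ)))
      ⊔ T).toSubfield.comap ι := by
    unfold ExtField
    rw [Subfield.closure_le]
    rintro x (hx | hx)
    · exact (le_sup_left : _ ≤ IntermediateField.adjoin ℚ_[2]
        (ι '' (M : Set (AlgebraicClosure ℚ))) ⊔ T)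
        (IntermediateField.subset_adjoin _ _ ⟨x, hx, rfl⟩)
    · apply (le_sup_right : _ ≤ IntermediateField.adjoin ℚ_[2]
        (ι '' (M : Set (AlgebraicClosure ℚ))) ⊔ T)
      have hint : IsIntegral ℚ_[2] (ι x) := (Algebra.IsAlgebraic.isAlgebraic (ι x)).isIntegral
      have halg : Algebra.IsAlgebraic ℚ (AlgebraicClosure ℚ) := AlgebraicClosure.isAlgebraic ℚ
      have hxint : IsIntegral ℚ x := (halg.isAlgebraic x).isIntegral
      have hG : FiniteDimensional ℚ_[2] (IntermediateField.adjoin ℚ_[2] {ι x}) :=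
        IntermediateField.adjoin.finiteDimensional hint
      apply hTG (IntermediateField.adjoin ℚ_[2] {ι x}) hG ?_
        (IntermediateField.subset_adjoin _ _ rfl)
      rw [IntermediateField.adjoin.finrank hint]
      have h0 : Polynomial.aeval (ι x) ((minpoly ℚ x).map (algebraMap ℚ ℚ_[2])) = 0 := by
        have h1 : Polynomial.eval₂ (algebraMap ℚ (AlgebraicClosure ℚ)) x (minpoly ℚ x) = 0 :=
          minpoly.aeval ℚ x
        have h2 := congrArg ι h1
        rw [Polynomial.hom_eval₂, map_zero] at h2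
        rw [Polynomial.aeval_def, Polynomial.eval₂_map]
        have h3 : ι.comp (algebraMap ℚ (AlgebraicClosure ℚ))
            = (algebraMap ℚ_[2] (PadicAlgCl 2)).comp (algebraMap ℚ ℚ_[2]) :=
          Subsingleton.elim _ _
        rw [← h3]
        exact h2
      have h4 := minpoly.dvd ℚ_[2] (ι x) h0
      have h5 : (minpoly ℚ x).map (algebraMap ℚ ℚ_[2]) ≠ 0 :=
        ((minpoly.monic hxint).map _).ne_zero
      have h6 := Polynomial.natDegree_le_of_dvd h4 h5
      rw [Polynomial.natDegree_map] at h6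
      exact h6.trans hx
  intro x hx
  exact key hx

open Classical in
/-- the kernel of `{·, b}` contains elements which are independent of given points and of the
points which are rational over the field `ExtField M d` -/
theorem kernel_step (M : Subfield (AlgebraicClosure ℚ)) (hM : FinRam M) (d : ℕ)
    {A B A' B' : AlgebraicClosure ℚ} [(Crv A B).IsElliptic] [(Crv A' B').IsElliptic]
    (b : (Crv A' B').Point) (F : Finset (Crv A B).Point) :
    ∃ κ ∈ (symbL (A₁ := A) (B₁ := B) b).ker, κ ∉ divHull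
      ({P : (Crv A B).Point | ∀ s ∈ coords P, s ∈ ExtField M d} ∪
        (F : Set (Crv A B).Point)) := by
  obtain ⟨ι, L, hL, hsub⟩ := extField_disc hM d
  obtain ⟨x₀, hx0, hx, hb⟩ := exists_x0 ι b
  have hx1 : x₀ ≠ 1 := by
    rintro rfl
    rw [map_one, norm_one] at hx
    norm_num at hx
  obtain ⟨κ, hκ, h⟩ := core_iso_disc ι hx0 hx L hL F
  refine ⟨κ, symb_isoGamma hx0 hx1 (gens_subset_isoGamma hκ) hb, ?_⟩
  rintro ⟨n, hn, hmem⟩
  apply h (n : ℤ) (by exact_mod_cast hn)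
  rw [natCast_zsmul]
  refine AddSubgroup.closure_mono ?_ hmem
  apply Set.union_subset_union_left
  intro P hP s hs
  exact hsub s (hP s hs)

open Classical in
theorem carriers_main (M : ℕ → Subfield (AlgebraicClosure ℚ)) (hM : ∀ n, FinRam (M n))
    (g : ℕ → ℕ) :
    ∃ C : ℕ → ∀ A B : AlgebraicClosure ℚ, AddSubgroup (Crv A B).Point,
      (∀ A B : AlgebraicClosure ℚ, (Crv A B).IsElliptic →
        (∀ (j n : ℕ) (P : (Crv A B).Point), n ≠ 0 → n • P ∈ C j A B → P ∈ C j A B) ∧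
        (∀ j, ∃ b : ℕ → (Crv A B).Point, LinearIndependent ℤ b ∧ ∀ i, b i ∈ C j A B) ∧
        (∀ (J : Finset ℕ) (c : ℕ → (Crv A B).Point), (∀ j ∈ J, c j ∈ C j A B) →
          ∑ j ∈ J, c j = 0 → ∀ j ∈ J, ∃ n : ℕ, n ≠ 0 ∧ n • c j = 0) ∧
        (∀ n : ℕ, ∃ f : Fin n → (Crv A B).Point, ∀ P ∈ ⨆ j, C j A B,
          (∀ s ∈ coords P, s ∈ ExtField (M n) (g n)) →
            ∃ N : ℕ, N ≠ 0 ∧ N • P ∈ AddSubgroup.closure (Set.range f))) ∧
      ∀ (m : ℕ) (_ : 2 ≤ m) (A B : Fin m → AlgebraicClosure ℚ)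
        [∀ i, (Crv (A i) (B i)).IsElliptic] (s : Fin m → ℕ) (z : MPt A B →₀ ℤ),
        z.sum (fun _ n => n) = 0 → (∀ i, z.sum (fun Q n => n • Q i) = 0) →
        ∃ w : MPt A B →₀ ℤ, (∀ Q ∈ w.support, ∀ i, Q i ∈ C (s i) (A i) (B i)) ∧
          w.sum (fun _ n => n) = 0 ∧ (∀ i, w.sum (fun Q n => n • Q i) = 0) ∧
          z.sum (fun Q n => (n : ℚ) • Mcl Q) = w.sum (fun Q n => (n : ℚ) • Mcl Q) := by
  have hcount := countable_algClosure
  have hpt : ∀ A B : AlgebraicClosure ℚ, Countable (Crv A B).Point :=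
    fun A B => countable_point A B
  have hidx : Countable (PtdCurve (AlgebraicClosure ℚ)) := inferInstance
  have key : ∀ A B : AlgebraicClosure ℚ, ∃ C : ℕ → AddSubgroup (Crv A B).Point,
      (Crv A B).IsElliptic →
      ((∀ (j n : ℕ) (P : (Crv A B).Point), n ≠ 0 → n • P ∈ C j → P ∈ C j) ∧
        (∀ j, ∃ b : ℕ → (Crv A B).Point, LinearIndependent ℤ b ∧ ∀ i, b i ∈ C j) ∧
        (∀ (J : Finset ℕ) (c : ℕ → (Crv A B).Point), (∀ j ∈ J, c j ∈ C j) →
          ∑ j ∈ J, c j = 0 → ∀ j ∈ J, ∃ n : ℕ, n ≠ 0 ∧ n • c j = 0) ∧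
        (∀ n : ℕ, ∃ f : Fin n → (Crv A B).Point, ∀ P ∈ ⨆ j, C j,
          (∀ s ∈ coords P, s ∈ ExtField (M n) (g n)) →
            ∃ N : ℕ, N ≠ 0 ∧ N • P ∈ AddSubgroup.closure (Set.range f))) ∧
      ∀ [(Crv A B).IsElliptic] (A' B' : AlgebraicClosure ℚ) [(Crv A' B').IsElliptic]
        (a : (Crv A B).Point) (b : (Crv A' B').Point) (j : ℕ),
        ∃ a' ∈ C j, symb a b = symb a' b := by
    intro A B
    by_cases hE : (Crv A B).IsElliptic
    · have hne : Nonempty (PtdCurve (AlgebraicClosure ℚ)) := ⟨⟨⟨(A, B), hE⟩, 0⟩⟩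
      obtain ⟨C, hC1, hC2, hC3, hC4, hC5⟩ := exists_carriers
        (fun n => {P : (Crv A B).Point | ∀ s ∈ coords P, s ∈ ExtField (M n) (g n)})
        (fun (i : PtdCurve (AlgebraicClosure ℚ)) =>
          haveI := i.1.2
          (symbL (A₁ := A) (B₁ := B) i.2).ker)
        (fun i n F => by
          haveI := i.1.2
          exact kernel_step (M n) (hM n) (g n) i.2 F)
      refine ⟨C, fun _ => ⟨⟨hC1, hC2, hC3, hC4⟩, ?_⟩⟩
      intro _ A' B' hE' a b j
      obtain ⟨κ, hκ, hmem⟩ := hC5 ⟨⟨(A', B'), hE'⟩, b⟩ a j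
      refine ⟨a - κ, hmem, ?_⟩
      have hκ' : symb κ b = 0 := hκ
      have h1 := symb_add_left (a - κ) κ b
      rw [sub_add_cancel, hκ', add_zero] at h1
      exact h1
    · exact ⟨fun _ => ⊥, fun h => absurd h hE⟩
  choose C hC using key
  refine ⟨fun j A B => C A B j, fun A B hE => (hC A B hE).1, ?_⟩
  intro m hm A B _ s z hdeg halb
  have : Nontrivial (Fin m) := Fin.nontrivial_iff_two_le.mpr hm
  refine mfold_carried (fun i => C (A i) (B i) (s i)) ?_ z hdeg halb
  intro i j _ a b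
  exact (hC (A i) (B i) inferInstance).2 (A j) (B j) a b (s i)

end final

end AlbCH
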